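import Pool.Agent.K9h48.AP.Stm

set_option autoImplicit false

namespace Pool.Agent.K9h48.AP

open Finset
open Pool.Agent.H699R2.OMV (Prog Vec Mat IsProb before)
open Pool.Agent.W856.Corner (Computed V LK LB bi LK_mul LK_mono LK_const LK_prod LK_one LB_not bi_not)

theorem tA1 : S_A1 := by
  classical
  intro p _ N w δ A O f hf φ P
  induction P with
  | done o =>
    intro t
    refine ⟨fun _ => φ o, LK_const _ _, fun x _ => rfl⟩
  | probe a k ih =>
    intro t
    rcases t with _ | t
    · refine ⟨0, Submodule.zero_mem _, fun x hx => ?_⟩
      simp [Prog.addrs] at hx
    · choose R hR hE using fun c => ih c t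
      let b : (Fin w → Bool) → Fin w → V N → ZMod p := fun c i x =>
        bi (ZMod p) (if c i = true then f a i x else !f a i x)
      have hb : ∀ c i, b c i ∈ LK (ZMod p) N δ := by
        intro c i
        show (fun x => bi (ZMod p) (if c i = true then f a i x else !f a i x)) ∈ LK (ZMod p) N δ
        by_cases h : c i = true
        · simp only [h, if_true]
          exact hf a i
        · simp only [h, if_false]
          exact LB_not (hf a i)
      refine ⟨∑ c : Fin w → Bool, (∏ i, b c i) * R c, ?_, ?_⟩
      · refine Submodule.sum_mem _ fun c _ => ?_
        have h1 := LK_prod (univ : Finset (Fin w)) (fun _ => δ) (b c) (fun i _ => hb c i)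
        have h2 := LK_mul h1 (hR c)
        refine LK_mono (le_of_eq ?_) h2
        rw [Finset.sum_const, Finset.card_univ, Fintype.card_fin, smul_eq_mul]
        ring
      · intro x hx
        rw [Finset.sum_apply, Finset.sum_eq_single (fun i => f a i x)]
        · rw [Pi.mul_apply, Finset.prod_apply]
          have h1 : ∏ i, b (fun i => f a i x) i x = 1 := by
            refine Finset.prod_eq_one fun i _ => ?_
            show bi (ZMod p) (if f a i x = true then f a i x else !f a i x) = 1
            cases h : f a i x <;> simp [bi]
          rw [h1, one_mul]
          refine hE (fun i => f a i x) x ?_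
          simpa [Prog.addrs] using hx
        · intro c _ hc
          have h1 : ∃ i, c i ≠ f a i x := by
            by_contra h
            push Not at h
            exact hc (funext h)
          obtain ⟨i, hi⟩ := h1
          rw [Pi.mul_apply, Finset.prod_apply, Finset.prod_eq_zero (Finset.mem_univ i), zero_mul]
          show bi (ZMod p) (if c i = true then f a i x else !f a i x) = 0
          cases h : f a i x <;> cases h' : c i <;> simp_all [bi]
        · intro h
          exact absurd (Finset.mem_univ _) h

end Pool.Agent.K9h48.AP
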