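import Pool.Agent.K9h48.AP.Stm

set_option autoImplicit false

namespace Pool.Agent.K9h48.AP

open Finset
open Pool.Agent.W856.Corner (V LK mon bit)

section

variable {p : ℕ} {N : ℕ}

/-- characters -/
def ch (p : ℕ) {N : ℕ} (B : Finset (Fin N)) (x : V N) : ZMod p := ∏ i, if i ∈ B then sg p (x i) else 1

lemma zz (a : ZMod 2) : a = 0 ∨ a = 1 := by
  revert a; decide

lemma sg_zero : sg p 0 = 1 := by simp [sg]

lemma sg_one : sg p 1 = -1 := by simp [sg]

lemma sg_mul_self (a : ZMod 2) : sg p a * sg p a = 1 := by
  rcases zz a with h | h <;> rw [h]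
  · rw [sg_zero]; ring
  · rw [sg_one]; ring

lemma sg_add (a b : ZMod 2) : sg p (a + b) = sg p a * sg p b := by
  rcases zz a with h | h <;> rcases zz b with h' | h' <;> rw [h, h']
  · rw [add_zero, sg_zero]; ring
  · rw [zero_add, sg_zero, sg_one]; ring
  · rw [add_zero, sg_zero, sg_one]; ring
  · have : (1 + 1 : ZMod 2) = 0 := by decide
    rw [this, sg_zero, sg_one]; ring

lemma ch_mul (B C : Finset (Fin N)) (x : V N) : ch p B x * ch p C x = ch p (symmDiff B C) x := by
  classical
  unfold ch
  rw [← Finset.prod_mul_distrib]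
  refine Finset.prod_congr rfl fun i _ => ?_
  by_cases h : i ∈ B <;> by_cases h' : i ∈ C
  · rw [if_pos h, if_pos h', if_neg, sg_mul_self]
    simp [Finset.mem_symmDiff, h, h']
  · rw [if_pos h, if_neg h', if_pos, mul_one]
    simp [Finset.mem_symmDiff, h, h']
  · rw [if_neg h, if_pos h', if_pos, one_mul]
    simp [Finset.mem_symmDiff, h, h']
  · rw [if_neg h, if_neg h', if_neg, one_mul]
    simp [Finset.mem_symmDiff, h, h']

lemma ch_eq (B : Finset (Fin N)) (x : V N) : ch p B x = sg p (∑ i ∈ B, x i) := by
  classical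
  unfold ch
  rw [Finset.prod_ite_mem, Finset.univ_inter]
  induction B using Finset.induction_on with
  | empty => simp [sg_zero]
  | insert a s ha ih => rw [Finset.prod_insert ha, Finset.sum_insert ha, sg_add, ih]

lemma ch_biUnion {n : ℕ} (T : Fin n → Finset (Fin N))
    (hT : ∀ r r', r ≠ r' → Disjoint (T r) (T r')) (A : Finset (Fin n)) (x : V N) :
    ∏ r ∈ A, sg p (∑ i ∈ T r, x i) = ch p (A.biUnion T) x := by
  classical
  rw [ch_eq, Finset.sum_biUnion (fun r _ r' _ h => hT r r' h)]
  induction A using Finset.induction_on with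
  | empty => simp [sg_zero]
  | insert a s ha ih => rw [Finset.prod_insert ha, Finset.sum_insert ha, sg_add, ih]

end

section

variable {p : ℕ} [Fact p.Prime] {N : ℕ}

lemma two_ne (hp : p ≠ 2) : (2 : ZMod p) ≠ 0 := by
  intro h
  have h1 : ((2 : ℕ) : ZMod p) = 0 := by exact_mod_cast h
  rw [ZMod.natCast_eq_zero_iff] at h1
  have h2 := (Nat.prime_dvd_prime_iff_eq (Fact.out : p.Prime) Nat.prime_two).1 h1
  exact hp h2

lemma mon_span (hp : p ≠ 2) (s : Finset (Fin N)) :
    mon (ZMod p) s ∈ Submodule.span (ZMod p)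
      (Set.range fun C : {C : Finset (Fin N) // C.card ≤ s.card} => ch p C.1) := by
  classical
  have h2 := two_ne hp
  have h1 : mon (ZMod p) s = ∑ C ∈ s.powerset, ((1 / 2 : ZMod p) ^ s.card * (-1) ^ C.card) • ch p C := by
    funext x
    rw [Finset.sum_apply]
    unfold mon
    have h3 : ∀ i ∈ s, bit (ZMod p) x i = (1 / 2) * (-sg p (x i) + 1) := by
      intro i _
      unfold bit
      rcases zz (x i) with h | h <;> rw [h]
      · rw [if_neg (by decide), sg_zero]; ring
      · rw [if_pos rfl, sg_one]
        field_simp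
        ring
    rw [Finset.prod_congr rfl h3, Finset.prod_mul_distrib, Finset.prod_const, Finset.prod_add,
      Finset.mul_sum]
    refine Finset.sum_congr rfl fun C hC => ?_
    rw [Finset.prod_const_one, mul_one, Pi.smul_apply, smul_eq_mul]
    unfold ch
    rw [Finset.prod_ite_mem, Finset.univ_inter, Finset.prod_neg]
    ring
  rw [h1]
  refine Submodule.sum_mem _ fun C hC => Submodule.smul_mem _ _ (Submodule.subset_span ?_)
  exact ⟨⟨C, Finset.card_le_card (Finset.mem_powerset.1 hC)⟩, rfl⟩

lemma LK_span (hp : p ≠ 2) (Δ : ℕ) :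
    LK (ZMod p) N Δ ≤ Submodule.span (ZMod p)
      (Set.range fun C : {C : Finset (Fin N) // C.card ≤ Δ} => ch p C.1) := by
  unfold LK
  rw [Submodule.span_le]
  rintro _ ⟨⟨s, hs⟩, rfl⟩
  refine Submodule.span_mono ?_ (mon_span hp s)
  rintro _ ⟨⟨C, hC⟩, rfl⟩
  exact ⟨⟨C, hC.trans hs⟩, rfl⟩

lemma delta_eq (hp : p ≠ 2) (z x : V N) :
    ((1 / 2 : ZMod p) ^ N * ∑ B : Finset (Fin N), ch p B z * ch p B x) = if x = z then 1 else 0 := by
  classical
  have h2 := two_ne hp
  have h1 : ∀ B : Finset (Fin N), ch p B z * ch p B x = ∏ i ∈ B, (sg p (z i) * sg p (x i)) := by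
    intro B
    unfold ch
    rw [Finset.prod_ite_mem, Finset.univ_inter, Finset.prod_ite_mem, Finset.univ_inter,
      Finset.prod_mul_distrib]
  rw [Finset.sum_congr rfl fun B _ => h1 B]
  have h3 : ∑ B : Finset (Fin N), ∏ i ∈ B, (sg p (z i) * sg p (x i)) =
      ∏ i : Fin N, (sg p (z i) * sg p (x i) + 1) := by
    rw [Finset.prod_add, Finset.powerset_univ]
    refine Finset.sum_congr rfl fun B _ => ?_
    rw [Finset.prod_const_one, mul_one]
  rw [h3]
  by_cases h : x = z
  · rw [if_pos h, h]
    have h4 : ∀ i ∈ (univ : Finset (Fin N)), sg p (z i) * sg p (z i) + 1 = 2 := by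
      intro i _
      rw [sg_mul_self]; norm_num
    rw [Finset.prod_congr rfl h4, Finset.prod_const, Finset.card_univ, Fintype.card_fin, ← mul_pow]
    rw [one_div, inv_mul_cancel₀ h2, one_pow]
  · rw [if_neg h]
    obtain ⟨i, hi⟩ := Function.ne_iff.1 h
    rw [Finset.prod_eq_zero (Finset.mem_univ i), mul_zero]
    rcases zz (z i) with h5 | h5 <;> rcases zz (x i) with h6 | h6
    · exact absurd (h6.trans h5.symm) hi
    · rw [h5, h6, sg_zero, sg_one]; ring
    · rw [h5, h6, sg_zero, sg_one]; ring
    · exact absurd (h6.trans h5.symm) hi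

lemma excess_symm {n Δ : ℕ} (T : Fin n → Finset (Fin N))
    (hT : ∀ r r', r ≠ r' → Disjoint (T r) (T r')) (B C : Finset (Fin N)) (hC : C.card ≤ Δ)
    (hB : ∀ r, (B ∩ T r).card ≤ (T r).card / 2) : excess T (symmDiff C B) ≤ Δ := by
  classical
  refine le_trans ?_ hC
  unfold excess
  have h1 : ∀ r, (symmDiff C B ∩ T r).card - (T r).card / 2 ≤ (C ∩ T r).card := by
    intro r
    have h2 : (symmDiff C B ∩ T r) ⊆ (C ∩ T r) ∪ (B ∩ T r) := by
      intro i hi
      simp only [Finset.mem_inter, Finset.mem_symmDiff, Finset.mem_union] at hi ⊢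
      tauto
    have h3 := (Finset.card_le_card h2).trans (Finset.card_union_le _ _)
    have h4 := hB r
    omega
  refine (Finset.sum_le_sum fun r _ => h1 r).trans ?_
  rw [← Finset.card_biUnion]
  · refine Finset.card_le_card ?_
    intro i hi
    rw [Finset.mem_biUnion] at hi
    obtain ⟨r, _, hr⟩ := hi
    exact (Finset.mem_inter.1 hr).1
  · intro r _ r' _ h
    have := hT r r' h
    rw [Function.onFun, Finset.disjoint_left]
    rw [Finset.disjoint_left] at this
    intro i hi hi'
    exact this (Finset.mem_inter.1 hi).2 (Finset.mem_inter.1 hi').2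

end

theorem tA2 : S_A2 := by
  classical
  intro p _ hp n N Δ T hT S hS
  let W : Submodule (ZMod p) (S → ZMod p) := Submodule.span (ZMod p)
    (Set.range fun B : {B : Finset (Fin N) // excess T B ≤ Δ} => fun x : S => ch p B.1 x.1)
  have hch : ∀ B : Finset (Fin N), (fun x : S => ch p B x.1) ∈ W := by
    intro B
    let A : Finset (Fin n) := univ.filter fun r => (T r).card / 2 < (B ∩ T r).card
    obtain ⟨P, hP, hPE⟩ := hS A
    let U := A.biUnion T
    let B' := symmDiff B U
    have hB' : ∀ r, (B' ∩ T r).card ≤ (T r).card / 2 := by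
      intro r
      by_cases h : r ∈ A
      · have h1 : B' ∩ T r = T r \ B := by
          ext i
          simp only [B', U, Finset.mem_inter, Finset.mem_symmDiff, Finset.mem_biUnion,
            Finset.mem_sdiff]
          constructor
          · rintro ⟨h1 | h1, h2⟩
            · exact absurd ⟨r, h, h2⟩ h1.2
            · exact ⟨h2, h1.2⟩
          · rintro ⟨h1, h2⟩
            exact ⟨Or.inr ⟨⟨r, h, h1⟩, h2⟩, h1⟩
        have h2 : (T r).card / 2 < (B ∩ T r).card := (Finset.mem_filter.1 h).2
        have h3 := Finset.card_sdiff_add_card_inter (T r) B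
        rw [Finset.inter_comm] at h3
        rw [h1]
        omega
      · have h1 : B' ∩ T r = B ∩ T r := by
          ext i
          simp only [B', U, Finset.mem_inter, Finset.mem_symmDiff, Finset.mem_biUnion]
          have h5 : i ∈ T r → ¬ ∃ a ∈ A, i ∈ T a := by
            rintro h6 ⟨a, ha, h7⟩
            have h8 : r ≠ a := fun h9 => h (h9 ▸ ha)
            exact Finset.disjoint_left.1 (hT r a h8) h6 h7
          constructor
          · rintro ⟨h6 | h6, h7⟩
            · exact ⟨h6.1, h7⟩
            · exact absurd h6.1 (h5 h7)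
          · rintro ⟨h6, h7⟩
            exact ⟨Or.inl ⟨h6, h5 h7⟩, h7⟩
        have h2 : ¬ (T r).card / 2 < (B ∩ T r).card := fun h3 =>
          h (Finset.mem_filter.2 ⟨Finset.mem_univ _, h3⟩)
        rw [h1]
        omega
    have h1 : (fun x : S => ch p B x.1) = fun x : S => P x.1 * ch p B' x.1 := by
      funext x
      rw [hPE x.1 x.2, ch_biUnion T hT, ch_mul]
      congr 1
      show B = symmDiff U (symmDiff B U)
      rw [symmDiff_comm B U, ← symmDiff_assoc, symmDiff_self, bot_symmDiff]
    rw [h1]
    have h2 := LK_span hp Δ hP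
    have h3 : ∀ Q ∈ Submodule.span (ZMod p)
        (Set.range fun C : {C : Finset (Fin N) // C.card ≤ Δ} => ch p C.1),
        (fun x : S => Q x.1 * ch p B' x.1) ∈ W := by
      intro Q hQ
      induction hQ using Submodule.span_induction with
      | mem x hx =>
        obtain ⟨⟨C, hC⟩, rfl⟩ := hx
        refine Submodule.subset_span ⟨⟨symmDiff C B', excess_symm T hT B' C hC hB'⟩, ?_⟩
        funext x
        exact (ch_mul C B' x.1).symm
      | zero =>
        have : (fun x : S => (0 : V N → ZMod p) x.1 * ch p B' x.1) = 0 := by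
          funext x
          simp
        rw [this]
        exact Submodule.zero_mem _
      | add f g _ _ hf hg =>
        have : (fun x : S => (f + g) x.1 * ch p B' x.1) =
            (fun x : S => f x.1 * ch p B' x.1) + fun x : S => g x.1 * ch p B' x.1 := by
          funext x
          simp [add_mul]
        rw [this]
        exact Submodule.add_mem _ hf hg
      | smul c f _ hf =>
        have : (fun x : S => (c • f) x.1 * ch p B' x.1) =
            c • fun x : S => f x.1 * ch p B' x.1 := by
          funext x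
          simp [mul_assoc]
        rw [this]
        exact Submodule.smul_mem _ _ hf
    exact h3 P h2
  have htop : W = ⊤ := by
    rw [eq_top_iff]
    intro f _
    have h1 : f = ∑ z : S, f z • ((1 / 2 : ZMod p) ^ N • ∑ B : Finset (Fin N), ch p B z.1 •
        fun x : S => ch p B x.1) := by
      funext x
      rw [Finset.sum_apply, Finset.sum_eq_single x]
      · rw [Pi.smul_apply, Pi.smul_apply, Finset.sum_apply, smul_eq_mul, smul_eq_mul]
        have := delta_eq hp x.1 x.1
        rw [if_pos rfl] at this
        simp only [Pi.smul_apply, smul_eq_mul]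
        rw [this, mul_one]
      · intro z _ hz
        rw [Pi.smul_apply, Pi.smul_apply, Finset.sum_apply, smul_eq_mul, smul_eq_mul]
        have := delta_eq hp z.1 x.1
        rw [if_neg (fun h => hz (Subtype.ext h.symm))] at this
        simp only [Pi.smul_apply, smul_eq_mul]
        rw [this, mul_zero]
      · intro h
        exact absurd (Finset.mem_univ _) h
    rw [h1]
    exact Submodule.sum_mem _ fun z _ => Submodule.smul_mem _ _ (Submodule.smul_mem _ _
      (Submodule.sum_mem _ fun B _ => Submodule.smul_mem _ _ (hch B)))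
  have h1 : Module.finrank (ZMod p) W ≤ Fintype.card {B : Finset (Fin N) // excess T B ≤ Δ} :=
    finrank_range_le_card _
  rw [htop, finrank_top, Module.finrank_fintype_fun_eq_card, Fintype.card_coe,
    Fintype.card_subtype] at h1
  exact h1

end Pool.Agent.K9h48.AP
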