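import Pool.Agent.K9h48.AP.Stm

set_option autoImplicit false

namespace Pool.Agent.K9h48.AP

open Finset

/-- the weight -/
noncomputable def wt (b : ℕ) {N : ℕ} (C : Finset (Fin N)) : ℝ := if b ≤ C.card then 1 / 16 else 1

lemma wt_nonneg (b : ℕ) {N : ℕ} (C : Finset (Fin N)) : 0 ≤ wt b C := by
  unfold wt
  split_ifs <;> norm_num

lemma one_block {N τ b : ℕ} (T : Finset (Fin N)) (hT : T.card = τ)
    (h : 2 ^ τ ≤ 4 * (univ.filter fun B : Finset (Fin τ) => b ≤ B.card).card) :
    ∑ C ∈ T.powerset, wt b C ≤ 2 ^ τ * (49 / 64) := by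
  classical
  set G := T.powerset.filter fun C => b ≤ C.card with hG
  have h1 : (univ.filter fun B : Finset (Fin τ) => b ≤ B.card).card ≤ G.card := by
    let e : T ≃ Fin τ := T.equivFinOfCardEq hT
    refine Finset.card_le_card_of_injOn
      (fun B => B.map (e.symm.toEmbedding.trans (Function.Embedding.subtype _))) ?_ ?_
    · intro B hB
      have hB' := (Finset.mem_filter.1 (Finset.mem_coe.1 hB)).2
      refine Finset.mem_coe.2 (Finset.mem_filter.2 ⟨?_, ?_⟩)
      · rw [Finset.mem_powerset]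
        intro i hi
        rw [Finset.mem_map] at hi
        obtain ⟨j, _, rfl⟩ := hi
        exact (e.symm j).2
      · rw [Finset.card_map]
        exact hB'
    · intro B _ B' _ hBB
      exact Finset.map_injective _ hBB
  have h2 : (2 : ℝ) ^ τ ≤ 4 * (G.card : ℝ) := by
    have := h.trans (Nat.mul_le_mul_left 4 h1)
    exact_mod_cast this
  have h3 : ∀ C ∈ T.powerset, wt b C = 1 - (15 / 16) * (if b ≤ C.card then (1 : ℝ) else 0) := by
    intro C _
    unfold wt
    split_ifs <;> norm_num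
  rw [Finset.sum_congr rfl h3, Finset.sum_sub_distrib, ← Finset.mul_sum, Finset.sum_boole,
    Finset.sum_const, Finset.card_powerset, hT, nsmul_eq_mul, mul_one]
  push_cast
  linarith

lemma blocks {n N τ b : ℕ} (T : Fin n → Finset (Fin N))
    (hT : ∀ r r', r ≠ r' → Disjoint (T r) (T r')) (hc : ∀ r, (T r).card = τ)
    (h : 2 ^ τ ≤ 4 * (univ.filter fun B : Finset (Fin τ) => b ≤ B.card).card)
    (A : Finset (Fin n)) : ∀ U : Finset (Fin N), (∀ r ∈ A, T r ⊆ U) →
      ∑ B ∈ U.powerset, ∏ r ∈ A, wt b (B ∩ T r) ≤ 2 ^ U.card * (49 / 64) ^ A.card := by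
  classical
  induction A using Finset.induction_on with
  | empty =>
    intro U _
    simp only [Finset.prod_empty, Finset.sum_const, Finset.card_powerset, Finset.card_empty,
      pow_zero, nsmul_eq_mul, mul_one]
    push_cast
    exact le_refl _
  | insert a A ha ih =>
    intro U hU
    have hTa := hU a (Finset.mem_insert_self _ _)
    have h1 : ∑ B ∈ U.powerset, ∏ r ∈ insert a A, wt b (B ∩ T r) =
        ∑ z ∈ (T a).powerset ×ˢ (U \ T a).powerset, wt b z.1 * ∏ r ∈ A, wt b (z.2 ∩ T r) := by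
      refine Finset.sum_nbij' (fun B => (B ∩ T a, B \ T a)) (fun z => z.1 ∪ z.2) ?_ ?_ ?_ ?_ ?_
      · intro B hB
        rw [Finset.mem_powerset] at hB
        rw [Finset.mem_product, Finset.mem_powerset, Finset.mem_powerset]
        exact ⟨Finset.inter_subset_right, Finset.sdiff_subset_sdiff hB (Finset.Subset.refl _)⟩
      · rintro ⟨C, D⟩ hz
        rw [Finset.mem_product, Finset.mem_powerset, Finset.mem_powerset] at hz
        rw [Finset.mem_powerset]
        exact Finset.union_subset (hz.1.trans hTa) (hz.2.trans Finset.sdiff_subset)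
      · intro B _
        ext i
        simp only [Finset.mem_union, Finset.mem_inter, Finset.mem_sdiff]
        tauto
      · rintro ⟨C, D⟩ hz
        rw [Finset.mem_product, Finset.mem_powerset, Finset.mem_powerset] at hz
        have hC : ∀ i ∈ C, i ∈ T a := fun i hi => hz.1 hi
        have hD : ∀ i ∈ D, i ∉ T a := fun i hi => (Finset.mem_sdiff.1 (hz.2 hi)).2
        refine Prod.ext ?_ ?_
        · ext i
          simp only [Finset.mem_union, Finset.mem_inter]
          constructor
          · rintro ⟨h1 | h1, h2⟩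
            · exact h1
            · exact absurd h2 (hD i h1)
          · intro h1
            exact ⟨Or.inl h1, hC i h1⟩
        · ext i
          simp only [Finset.mem_union, Finset.mem_sdiff]
          constructor
          · rintro ⟨h1 | h1, h2⟩
            · exact absurd (hC i h1) h2
            · exact h1
          · intro h1
            exact ⟨Or.inr h1, hD i h1⟩
      · intro B _
        rw [Finset.prod_insert ha]
        congr 1
        refine Finset.prod_congr rfl fun r hr => ?_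
        congr 1
        ext i
        simp only [Finset.mem_inter, Finset.mem_sdiff]
        constructor
        · rintro ⟨h1, h2⟩
          refine ⟨⟨h1, fun h3 => ?_⟩, h2⟩
          have h4 : r ≠ a := fun h5 => ha (h5 ▸ hr)
          exact Finset.disjoint_left.1 (hT r a h4) h2 h3
        · rintro ⟨⟨h1, _⟩, h2⟩
          exact ⟨h1, h2⟩
    rw [h1, Finset.sum_product]
    have h2 : ∑ C ∈ (T a).powerset, ∑ D ∈ (U \ T a).powerset, wt b C * ∏ r ∈ A, wt b (D ∩ T r) =
        (∑ C ∈ (T a).powerset, wt b C) * ∑ D ∈ (U \ T a).powerset, ∏ r ∈ A, wt b (D ∩ T r) := by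
      rw [Finset.sum_mul_sum]
    rw [h2]
    have h3 := one_block (T a) (hc a) h
    have h4 := ih (U \ T a) (fun r hr => by
      intro i hi
      rw [Finset.mem_sdiff]
      refine ⟨hU r (Finset.mem_insert_of_mem hr) hi, fun h3 => ?_⟩
      have h4 : r ≠ a := fun h5 => ha (h5 ▸ hr)
      exact Finset.disjoint_left.1 (hT r a h4) hi h3)
    have h5 : (2 : ℝ) ^ U.card = 2 ^ τ * 2 ^ (U \ T a).card := by
      rw [← pow_add, ← hc a]
      congr 1
      rw [Finset.card_sdiff_of_subset hTa]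
      have := Finset.card_le_card hTa
      omega
    rw [Finset.card_insert_of_notMem ha, h5]
    calc (∑ C ∈ (T a).powerset, wt b C) * ∑ D ∈ (U \ T a).powerset, ∏ r ∈ A, wt b (D ∩ T r)
        ≤ (2 ^ τ * (49 / 64)) * (2 ^ (U \ T a).card * (49 / 64) ^ A.card) := by
          refine mul_le_mul h3 h4 ?_ (by positivity)
          exact Finset.sum_nonneg fun D _ => Finset.prod_nonneg fun r _ => wt_nonneg _ _
      _ = _ := by ring

lemma num3 (n : ℕ) : (49 / 64 : ℝ) ^ n * 2 ^ (n / 4) * 2 ^ (n / 8) ≤ 1 := by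
  obtain ⟨u, v, hv, rfl⟩ : ∃ u v, v < 8 ∧ n = 8 * u + v :=
    ⟨n / 8, n % 8, Nat.mod_lt _ (by norm_num), (Nat.div_add_mod n 8).symm⟩
  have h1 : (8 * u + v) / 4 = 2 * u + v / 4 := by omega
  have h2 : (8 * u + v) / 8 = u := by omega
  rw [h1, h2]
  have h3 : (49 / 64 : ℝ) ^ (8 * u + v) * 2 ^ (2 * u + v / 4) * 2 ^ u =
      ((49 / 64) ^ 8 * 8) ^ u * ((49 / 64) ^ v * 2 ^ (v / 4)) := by
    rw [pow_add, pow_mul, pow_add, pow_mul, mul_pow]
    have : (8 : ℝ) ^ u = (2 ^ 2) ^ u * 2 ^ u := by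
      rw [← mul_pow]
      norm_num
    rw [this]
    ring
  rw [h3]
  have h4 : (49 / 64 : ℝ) ^ v * 2 ^ (v / 4) ≤ 1 := by
    interval_cases v <;> norm_num
  have h5 : ((49 / 64 : ℝ) ^ 8 * 8) ^ u ≤ 1 := pow_le_one₀ (by norm_num) (by norm_num)
  have h6 : (0 : ℝ) ≤ (49 / 64 : ℝ) ^ v * 2 ^ (v / 4) := by positivity
  calc _ ≤ 1 * ((49 / 64 : ℝ) ^ v * 2 ^ (v / 4)) := mul_le_mul_of_nonneg_right h5 h6
    _ ≤ 1 := by linarith

theorem tA3 : S_A3 := by
  classical
  intro n N τ a Δ T hT hc ha h hΔ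
  set E := univ.filter fun B : Finset (Fin N) => excess T B ≤ Δ with hE
  have h1 := blocks (b := τ / 2 + a) T hT hc h univ univ (fun r _ => Finset.subset_univ _)
  rw [Finset.powerset_univ, Finset.card_univ, Finset.card_univ, Fintype.card_fin,
    Fintype.card_fin] at h1
  have h2 : ∀ B ∈ E, (1 : ℝ) ≤ 2 ^ (n / 4) * ∏ r, wt (τ / 2 + a) (B ∩ T r) := by
    intro B hB
    have hB' : excess T B ≤ Δ := (Finset.mem_filter.1 hB).2
    set F := univ.filter fun r => τ / 2 + a ≤ (B ∩ T r).card with hF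
    have h3 : a * F.card ≤ excess T B := by
      unfold excess
      calc a * F.card = ∑ _r ∈ F, a := by rw [Finset.sum_const, smul_eq_mul, mul_comm]
        _ ≤ ∑ r ∈ F, ((B ∩ T r).card - (T r).card / 2) := by
            refine Finset.sum_le_sum fun r hr => ?_
            have := (Finset.mem_filter.1 hr).2
            rw [hc r]
            omega
        _ ≤ _ := Finset.sum_le_sum_of_subset (Finset.subset_univ _)
    have h4 : 16 * F.card ≤ n := by
      have h5 : a * (16 * F.card) ≤ a * n := by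
        calc a * (16 * F.card) = 16 * (a * F.card) := by ring
          _ ≤ 16 * Δ := Nat.mul_le_mul_left _ (h3.trans hB')
          _ ≤ a * n := hΔ
      exact Nat.le_of_mul_le_mul_left h5 ha
    have h5 : ∏ r, wt (τ / 2 + a) (B ∩ T r) = (1 / 16) ^ F.card := by
      unfold wt
      rw [Finset.prod_ite, Finset.prod_const, Finset.prod_const_one, mul_one]
    rw [h5]
    have h6 : (1 / 16 : ℝ) ^ F.card = 1 / 2 ^ (4 * F.card) := by
      rw [pow_mul, one_div_pow]
      norm_num
    rw [h6, mul_one_div, le_div_iff₀ (by positivity), one_mul]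
    exact pow_le_pow_right₀ (by norm_num) (by omega)
  have h3 : (E.card : ℝ) ≤ 2 ^ (n / 4) * (2 ^ N * (49 / 64) ^ n) := by
    calc (E.card : ℝ) = ∑ _B ∈ E, (1 : ℝ) := by simp
      _ ≤ ∑ B ∈ E, 2 ^ (n / 4) * ∏ r, wt (τ / 2 + a) (B ∩ T r) := Finset.sum_le_sum h2
      _ ≤ ∑ B : Finset (Fin N), 2 ^ (n / 4) * ∏ r, wt (τ / 2 + a) (B ∩ T r) := by
          refine Finset.sum_le_sum_of_subset_of_nonneg (Finset.subset_univ _) fun B _ _ => ?_
          exact mul_nonneg (by positivity) (Finset.prod_nonneg fun r _ => wt_nonneg _ _)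
      _ = 2 ^ (n / 4) * ∑ B : Finset (Fin N), ∏ r, wt (τ / 2 + a) (B ∩ T r) := by
          rw [Finset.mul_sum]
      _ ≤ _ := mul_le_mul_of_nonneg_left h1 (by positivity)
  have h4 : (E.card : ℝ) * 2 ^ (n / 8) ≤ 2 ^ N := by
    calc (E.card : ℝ) * 2 ^ (n / 8) ≤ (2 ^ (n / 4) * (2 ^ N * (49 / 64) ^ n)) * 2 ^ (n / 8) :=
          mul_le_mul_of_nonneg_right h3 (by positivity)
      _ = 2 ^ N * ((49 / 64) ^ n * 2 ^ (n / 4) * 2 ^ (n / 8)) := by ring
      _ ≤ 2 ^ N * 1 := mul_le_mul_of_nonneg_left (num3 n) (by positivity)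
      _ = 2 ^ N := mul_one _
  exact_mod_cast h4

end Pool.Agent.K9h48.AP
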