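import Pool.Agent.K9h48.AP.Stm

set_option autoImplicit false

namespace Pool.Agent.K9h48.AP

open Finset

lemma cb_bound (m : ℕ) : (2 * m + 1) * Nat.centralBinom m ^ 2 ≤ 16 ^ m := by
  induction m with
  | zero => simp
  | succ m ih =>
    have h1 := Nat.succ_mul_centralBinom_succ m
    have h2 : (m + 1) ^ 2 * ((2 * (m + 1) + 1) * Nat.centralBinom (m + 1) ^ 2) ≤
        (m + 1) ^ 2 * 16 ^ (m + 1) := by
      calc (m + 1) ^ 2 * ((2 * (m + 1) + 1) * Nat.centralBinom (m + 1) ^ 2)
          = (2 * (m + 1) + 1) * ((m + 1) * Nat.centralBinom (m + 1)) ^ 2 := by ring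
        _ = (2 * (m + 1) + 1) * (2 * (2 * m + 1) * Nat.centralBinom m) ^ 2 := by rw [h1]
        _ = (4 * (2 * m + 3) * (2 * m + 1)) * ((2 * m + 1) * Nat.centralBinom m ^ 2) := by ring
        _ ≤ (16 * (m + 1) ^ 2) * 16 ^ m := Nat.mul_le_mul (by nlinarith) ih
        _ = (m + 1) ^ 2 * 16 ^ (m + 1) := by ring
    exact Nat.le_of_mul_le_mul_left h2 (by positivity)

lemma mid_bound (t : ℕ) : (t + 1) * (t.choose (t / 2)) ^ 2 ≤ 4 ^ t := by
  rcases Nat.even_or_odd' t with ⟨m, rfl | rfl⟩
  · have h1 := cb_bound m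
    rw [Nat.centralBinom] at h1
    have h2 : 2 * m / 2 = m := by omega
    rw [h2, pow_mul]
    exact h1
  · have h1 := cb_bound (m + 1)
    have h2 : (2 * m + 1) / 2 = m := by omega
    have h3 : Nat.centralBinom (m + 1) = 2 * (2 * m + 1).choose m := by
      rw [Nat.centralBinom]
      have h4 : 2 * (m + 1) = (2 * m + 1) + 1 := by ring
      rw [h4, Nat.choose_succ_succ, Nat.choose_symm_half]
      ring
    rw [h3] at h1
    rw [h2]
    have h5 : 4 * ((2 * m + 3) * ((2 * m + 1).choose m) ^ 2) ≤ 4 * 4 ^ (2 * m + 1) := by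
      calc 4 * ((2 * m + 3) * ((2 * m + 1).choose m) ^ 2) =
          (2 * (m + 1) + 1) * (2 * (2 * m + 1).choose m) ^ 2 := by ring
        _ ≤ 16 ^ (m + 1) := h1
        _ = 4 * 4 ^ (2 * m + 1) := by
            have : (16 : ℕ) = 4 ^ 2 := by norm_num
            rw [this, ← pow_mul]
            ring
    have h6 := Nat.le_of_mul_le_mul_left h5 (by norm_num)
    refine le_trans (Nat.mul_le_mul_right _ ?_) h6
    omega

lemma upper_count (t a : ℕ) (ha : 1 ≤ a) (h : 4 * (2 * a - 1) ^ 2 ≤ t + 1) :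
    2 ^ t ≤ 4 * (univ.filter fun B : Finset (Fin t) => t / 2 + a ≤ B.card).card := by
  classical
  set U := univ.filter fun B : Finset (Fin t) => t / 2 + a ≤ B.card with hU
  set L := univ.filter fun B : Finset (Fin t) => B.card + (t / 2 + a) ≤ t with hL
  set J := Finset.Ico (t + 1 - (t / 2 + a)) (t / 2 + a) with hJ
  set W := J.biUnion fun j => powersetCard j (univ : Finset (Fin t)) with hW
  have h1 : (univ : Finset (Finset (Fin t))) ⊆ (U ∪ L) ∪ W := by
    intro B _
    have hB : B.card ≤ t := by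
      have := Finset.card_le_univ B
      rwa [Fintype.card_fin] at this
    simp only [hU, hL, hW, hJ, Finset.mem_union, Finset.mem_filter, Finset.mem_univ, true_and,
      Finset.mem_biUnion, Finset.mem_Ico, Finset.mem_powersetCard, Finset.subset_univ]
    by_cases h2 : t / 2 + a ≤ B.card
    · exact Or.inl (Or.inl h2)
    · by_cases h3 : B.card + (t / 2 + a) ≤ t
      · exact Or.inl (Or.inr h3)
      · exact Or.inr ⟨B.card, ⟨by omega, by omega⟩, rfl⟩
  have h2 : L.card ≤ U.card := by
    refine Finset.card_le_card_of_injOn (fun B => Bᶜ) ?_ ?_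
    · intro B hB
      have hB' := (Finset.mem_filter.1 (Finset.mem_coe.1 hB)).2
      refine Finset.mem_coe.2 (Finset.mem_filter.2 ⟨Finset.mem_univ _, ?_⟩)
      rw [Finset.card_compl, Fintype.card_fin]
      omega
    · intro B _ B' _ hBB
      exact compl_injective hBB
  have h3 : W.card ≤ (2 * a - 1) * t.choose (t / 2) := by
    refine Finset.card_biUnion_le.trans ?_
    calc ∑ j ∈ J, (powersetCard j (univ : Finset (Fin t))).card ≤ ∑ _j ∈ J, t.choose (t / 2) := by
          refine Finset.sum_le_sum fun j _ => ?_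
          rw [Finset.card_powersetCard, Finset.card_univ, Fintype.card_fin]
          exact Nat.choose_le_middle j t
      _ = J.card * t.choose (t / 2) := by rw [Finset.sum_const, smul_eq_mul]
      _ ≤ _ := by
          refine Nat.mul_le_mul_right _ ?_
          rw [hJ, Nat.card_Ico]
          omega
  have h4 : 2 * (2 * a - 1) * t.choose (t / 2) ≤ 2 ^ t := by
    have h5 := mid_bound t
    have h6 : (2 * (2 * a - 1) * t.choose (t / 2)) ^ 2 ≤ (2 ^ t) ^ 2 := by
      calc (2 * (2 * a - 1) * t.choose (t / 2)) ^ 2 =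
          (4 * (2 * a - 1) ^ 2) * (t.choose (t / 2)) ^ 2 := by ring
        _ ≤ (t + 1) * (t.choose (t / 2)) ^ 2 := Nat.mul_le_mul_right _ h
        _ ≤ 4 ^ t := h5
        _ = (2 ^ t) ^ 2 := by
            have : (4 : ℕ) = 2 ^ 2 := by norm_num
            rw [this, ← pow_mul, ← pow_mul, mul_comm]
    exact (Nat.pow_le_pow_iff_left (by norm_num)).1 h6
  have h5 := Finset.card_le_card h1
  have h6 : ((U ∪ L) ∪ W).card ≤ U.card + L.card + W.card :=
    (Finset.card_union_le _ _).trans (Nat.add_le_add_right (Finset.card_union_le _ _) _)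
  rw [Finset.card_univ, Fintype.card_finset, Fintype.card_fin] at h5
  have h7 : 2 * W.card ≤ 2 ^ t := by
    refine le_trans ?_ h4
    rw [mul_assoc]
    exact Nat.mul_le_mul_left _ h3
  omega

theorem tA4 : S_A4 := by
  classical
  intro t ht
  by_cases h3 : t < 3
  · refine ⟨1, le_rfl, by omega, ?_⟩
    have : t = 1 ∨ t = 2 := by omega
    rcases this with rfl | rfl <;> decide
  · set a := Nat.findGreatest (fun a => 4 * (2 * a - 1) ^ 2 ≤ t + 1) (t + 1) with ha
    have h1 : 4 * (2 * a - 1) ^ 2 ≤ t + 1 :=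
      Nat.findGreatest_spec (P := fun a => 4 * (2 * a - 1) ^ 2 ≤ t + 1) (m := 1) (by omega) (by
        show 4 * (2 * 1 - 1) ^ 2 ≤ t + 1
        omega)
    have h2 : 1 ≤ a := Nat.le_findGreatest (by omega) (by
      show 4 * (2 * 1 - 1) ^ 2 ≤ t + 1
      omega)
    refine ⟨a, h2, ?_, upper_count t a h2 h1⟩
    by_contra h4
    push Not at h4
    have h5 : a + 1 ≤ t + 1 := by nlinarith
    have h6 := Nat.findGreatest_is_greatest (P := fun a => 4 * (2 * a - 1) ^ 2 ≤ t + 1)
      (n := t + 1) (k := a + 1) (by rw [← ha]; omega) h5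
    apply h6
    show 4 * (2 * (a + 1) - 1) ^ 2 ≤ t + 1
    have h7 : 2 * (a + 1) - 1 = 2 * a + 1 := by omega
    rw [h7]
    nlinarith

end Pool.Agent.K9h48.AP
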