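import Pool.Agent.K9h48.AP.A2

set_option autoImplicit false

namespace Pool.Agent.K9h48.AP

open Finset
open Pool.Agent.W856.Corner (V LK mon bit)

variable {p : ℕ} [Fact p.Prime] {N : ℕ}

lemma ch_span_top (hp : p ≠ 2) :
    (⊤ : Submodule (ZMod p) (V N → ZMod p)) ≤ Submodule.span (ZMod p)
      (Set.range fun B : Finset (Fin N) => ch p B) := by
  classical
  intro f _
  have h1 : f = ∑ z : V N, f z • ((1 / 2 : ZMod p) ^ N • ∑ B : Finset (Fin N), ch p B z • ch p B) := by
    funext x
    rw [Finset.sum_apply, Finset.sum_eq_single x]
    · rw [Pi.smul_apply, Pi.smul_apply, Finset.sum_apply, smul_eq_mul, smul_eq_mul]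
      have := delta_eq hp x x
      rw [if_pos rfl] at this
      simp only [Pi.smul_apply, smul_eq_mul]
      rw [this, mul_one]
    · intro z _ hz
      rw [Pi.smul_apply, Pi.smul_apply, Finset.sum_apply, smul_eq_mul, smul_eq_mul]
      have := delta_eq hp z x
      rw [if_neg (fun h => hz h.symm)] at this
      simp only [Pi.smul_apply, smul_eq_mul]
      rw [this, mul_zero]
    · intro h
      exact absurd (Finset.mem_univ _) h
  rw [h1]
  exact Submodule.sum_mem _ fun z _ => Submodule.smul_mem _ _ (Submodule.smul_mem _ _
    (Submodule.sum_mem _ fun B _ => Submodule.smul_mem _ _ (Submodule.subset_span ⟨B, rfl⟩)))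

lemma ch_indep (hp : p ≠ 2) : LinearIndependent (ZMod p) (fun B : Finset (Fin N) => ch p B) := by
  classical
  refine linearIndependent_of_top_le_span_of_card_eq_finrank (ch_span_top hp) ?_
  rw [Module.finrank_fintype_fun_eq_card, Fintype.card_finset, Fintype.card_fun, ZMod.card]

theorem tB1 : S_B1 := by
  classical
  intro p _ hp N Δ hΔ g hg c hc
  have h1 : g ∈ Submodule.span (ZMod p)
      ((fun B : Finset (Fin N) => ch p B) '' {B | B.card ≤ Δ}) := by
    have := LK_span hp Δ hg
    refine Submodule.span_mono ?_ this
    rintro _ ⟨⟨C, hC⟩, rfl⟩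
    exact ⟨C, hC, rfl⟩
  have h2 : ∀ f ∈ Submodule.span (ZMod p)
      ((fun B : Finset (Fin N) => ch p B) '' {B | B.card ≤ Δ}),
      (fun x => ch p (univ : Finset (Fin N)) x * f x) ∈ Submodule.span (ZMod p)
        ((fun B : Finset (Fin N) => ch p B) '' {B | Δ < B.card}) := by
    intro f hf
    induction hf using Submodule.span_induction with
    | mem x hx =>
      obtain ⟨C, hC, rfl⟩ := hx
      refine Submodule.subset_span ⟨symmDiff univ C, ?_, ?_⟩
      · show Δ < (symmDiff univ C).card
        have h3 : symmDiff univ C = Cᶜ := by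
          ext i
          simp [Finset.mem_symmDiff]
        have hC' : C.card ≤ Δ := hC
        rw [h3, Finset.card_compl, Fintype.card_fin]
        omega
      · funext x
        exact (ch_mul _ _ x).symm
    | zero =>
      have : (fun x => ch p (univ : Finset (Fin N)) x * (0 : V N → ZMod p) x) = 0 := by
        funext x
        simp
      rw [this]
      exact Submodule.zero_mem _
    | add f g _ _ hf hg =>
      have : (fun x => ch p (univ : Finset (Fin N)) x * (f + g) x) =
          (fun x => ch p (univ : Finset (Fin N)) x * f x) +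
            fun x => ch p (univ : Finset (Fin N)) x * g x := by
        funext x
        simp [mul_add]
      rw [this]
      exact Submodule.add_mem _ hf hg
    | smul c f _ hf =>
      have : (fun x => ch p (univ : Finset (Fin N)) x * (c • f) x) =
          c • fun x => ch p (univ : Finset (Fin N)) x * f x := by
        funext x
        simp [mul_left_comm]
      rw [this]
      exact Submodule.smul_mem _ _ hf
  have h3 : (fun x => ch p (univ : Finset (Fin N)) x * g x) = sg p c • g := by
    funext x
    rw [Pi.smul_apply, smul_eq_mul]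
    by_cases h : g x = 0
    · rw [h, mul_zero, mul_zero]
    · rw [ch_eq, hc x h]
  have h4 := h2 g h1
  rw [h3] at h4
  have h5 : g ∈ Submodule.span (ZMod p)
      ((fun B : Finset (Fin N) => ch p B) '' {B | Δ < B.card}) := by
    have h6 := Submodule.smul_mem _ (sg p c) h4
    rw [smul_smul, sg_mul_self, one_smul] at h6
    exact h6
  have h6 := (ch_indep (N := N) hp).disjoint_span_image
    (s := {B : Finset (Fin N) | B.card ≤ Δ}) (t := {B : Finset (Fin N) | Δ < B.card}) (by
      rw [Set.disjoint_left]
      intro B hB hB'
      have h7 : B.card ≤ Δ := hB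
      have h8 : Δ < B.card := hB'
      omega)
  rw [Submodule.disjoint_def] at h6
  exact h6 g h1 h5

end Pool.Agent.K9h48.AP
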