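import Pool.Agent.K9h48.AP.Stm

set_option autoImplicit false

namespace Pool.Agent.K9h48.AP

open Finset
open Pool.Agent.W856.Corner (V HasDegree Computed)

lemma hasDegree_subst {p k n n' : ℕ} (hp : p.Prime) (σ : V n' → V n)
    (hσ : ∀ i, (∃ c, ∀ y, σ y i = c) ∨ (∃ j, ∀ y, σ y i = y j)) {f : V n → Bool}
    (h : HasDegree p k f) : HasDegree p k (fun y : V n' => f (σ y)) := by
  classical
  obtain ⟨P, hP, he⟩ := h
  have : Fact p.Prime := ⟨hp⟩
  have hex : ∀ i : Fin n, ∃ Q : MvPolynomial (Fin n') (ZMod p), Q.totalDegree ≤ 1 ∧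
      ∀ y : V n', MvPolynomial.eval (fun i => if y i = 1 then (1 : ZMod p) else 0) Q =
        if σ y i = 1 then (1 : ZMod p) else 0 := by
    intro i
    rcases hσ i with ⟨c, hc⟩ | ⟨j, hj⟩
    · refine ⟨MvPolynomial.C (if c = 1 then (1 : ZMod p) else 0), ?_, fun y => ?_⟩
      · rw [MvPolynomial.totalDegree_C]
        exact Nat.zero_le _
      · rw [MvPolynomial.eval_C, hc y]
    · refine ⟨MvPolynomial.X j, ?_, fun y => ?_⟩
      · rw [MvPolynomial.totalDegree_X]
      · rw [MvPolynomial.eval_X, hj y]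
  choose Q hQ1 hQ2 using hex
  refine ⟨∑ m ∈ P.support, MvPolynomial.C (P.coeff m) * ∏ i ∈ m.support, Q i ^ m i, ?_,
    fun y => ?_⟩
  · refine MvPolynomial.totalDegree_finsetSum_le fun m hm => ?_
    refine (MvPolynomial.totalDegree_mul _ _).trans ?_
    rw [MvPolynomial.totalDegree_C, zero_add]
    refine (MvPolynomial.totalDegree_finsetProd _ _).trans ?_
    refine le_trans ?_ ((MvPolynomial.le_totalDegree hm).trans hP)
    rw [Finsupp.sum]
    refine Finset.sum_le_sum fun i _ => ?_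
    refine (MvPolynomial.totalDegree_pow _ _).trans ?_
    exact (Nat.mul_le_mul_left _ (hQ1 i)).trans (by simp)
  · have h1 := he (σ y)
    rw [MvPolynomial.eval_eq] at h1
    rw [← h1, map_sum]
    refine Finset.sum_congr rfl fun m _ => ?_
    rw [map_mul, MvPolynomial.eval_C, map_prod]
    congr 1
    refine Finset.prod_congr rfl fun i _ => ?_
    rw [map_pow]
    congr 1
    exact hQ2 i y

theorem tB2 : S_B2 := by
  intro p k s d n n' hp σ hσ S h
  obtain ⟨C, hs, hd, i, hi⟩ := h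
  refine ⟨{ N := C.N
            val := fun j y => C.val j (σ y)
            depth := C.depth
            andOr := C.andOr
            rule := fun j => ?_ }, hs, hd, i, fun y => hi _⟩
  rcases C.rule j with ⟨h0, h⟩ | ⟨h0, a, ha, hda, h⟩ | ⟨h0, J, r, hJ, h⟩ | ⟨h0, J, hJ, h⟩
  · exact Or.inl ⟨h0, hasDegree_subst hp σ hσ h⟩
  · exact Or.inr (Or.inl ⟨h0, a, ha, hda, fun y => h _⟩)
  · exact Or.inr (Or.inr (Or.inl ⟨h0, J, r, hJ, fun y => h _⟩))
  · refine Or.inr (Or.inr (Or.inr ⟨h0, J, hJ, ?_⟩))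
    rcases h with h | h
    · exact Or.inl fun y => h _
    · exact Or.inr fun y => h _

end Pool.Agent.K9h48.AP
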