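import Pool.Agent.K9h48.AP.Stm

set_option autoImplicit false

namespace Pool.Agent.K9h48.AP

open Finset
open Pool.Agent.W856.Corner (V HasDegree Computed Circuit)

/-- the rule for a node -/
def Rule (p k : ℕ) {n N : ℕ} (val : Fin N → V n → Bool) (depth : Fin N → ℕ)
    (andOr : Finset (Fin N)) (i : Fin N) : Prop :=
  (i ∉ andOr ∧ HasDegree p k (val i)) ∨
  (i ∉ andOr ∧ ∃ j : Fin N, j < i ∧ depth j ≤ depth i ∧ ∀ y, val i y = !val j y) ∨
  (i ∉ andOr ∧ ∃ (J : Finset (Fin N)) (r : ZMod p), (∀ j ∈ J, j < i ∧ depth j < depth i) ∧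
    ∀ y, val i y = decide (((J.filter fun j => val j y = true).card : ZMod p) = r)) ∨
  (i ∈ andOr ∧ ∃ J : Finset (Fin N), (∀ j ∈ J, j < i ∧ depth j < depth i) ∧
    ((∀ y, val i y = decide (∀ j ∈ J, val j y = true)) ∨
      ∀ y, val i y = decide (∃ j ∈ J, val j y = true)))

lemma rule_map {p k n N M : ℕ} (e : Fin N ↪ Fin M) (he : StrictMono e)
    {val : Fin N → V n → Bool} {val' : Fin M → V n → Bool} (hv : ∀ j, val' (e j) = val j)
    {depth : Fin N → ℕ} {depth' : Fin M → ℕ} (hd : ∀ j, depth' (e j) = depth j)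
    {G : Finset (Fin N)} {G' : Finset (Fin M)} (hG : ∀ j, e j ∈ G' ↔ j ∈ G) {i : Fin N}
    (h : Rule p k val depth G i) : Rule p k val' depth' G' (e i) := by
  classical
  rcases h with ⟨h0, h⟩ | ⟨h0, a, ha, hda, h⟩ | ⟨h0, J, r, hJ, h⟩ | ⟨h0, J, hJ, h⟩
  · refine Or.inl ⟨fun h1 => h0 ((hG i).1 h1), ?_⟩
    rw [hv]
    exact h
  · refine Or.inr (Or.inl ⟨fun h1 => h0 ((hG i).1 h1), e a, he ha, ?_, fun y => ?_⟩)
    · rw [hd, hd]
      exact hda
    · rw [hv, hv]
      exact h y
  · refine Or.inr (Or.inr (Or.inl ⟨fun h1 => h0 ((hG i).1 h1), J.map e, r, ?_, fun y => ?_⟩))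
    · intro j hj
      rw [Finset.mem_map] at hj
      obtain ⟨j, hj, rfl⟩ := hj
      rw [hd, hd]
      exact ⟨he (hJ j hj).1, (hJ j hj).2⟩
    · rw [hv, h y, Finset.filter_map, Finset.card_map]
      congr 3
      congr 1
      ext j
      simp [hv]
  · refine Or.inr (Or.inr (Or.inr ⟨(hG i).2 h0, J.map e, ?_, ?_⟩))
    · intro j hj
      rw [Finset.mem_map] at hj
      obtain ⟨j, hj, rfl⟩ := hj
      rw [hd, hd]
      exact ⟨he (hJ j hj).1, (hJ j hj).2⟩
    · rcases h with h | h
      · refine Or.inl fun y => ?_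
        rw [hv, h y]
        simp [hv]
      · refine Or.inr fun y => ?_
        rw [hv, h y]
        simp [hv]

lemma castAdd_strictMono (N M : ℕ) : StrictMono (Fin.castAddEmb (n := N) M) := by
  intro i j h
  exact h

lemma natAdd_strictMono (N M : ℕ) : StrictMono (Fin.natAddEmb (m := M) N) := by
  intro i j h
  show Fin.natAdd N i < Fin.natAdd N j
  rw [Fin.lt_def] at h ⊢
  simpa using h

/-- the data of a union -/
def uG {N M : ℕ} (G : Finset (Fin N)) (G' : Finset (Fin M)) : Finset (Fin (N + M)) :=
  G.map (Fin.castAddEmb M) ∪ G'.map (Fin.natAddEmb N)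

lemma uG_left {N M : ℕ} (G : Finset (Fin N)) (G' : Finset (Fin M)) (j : Fin N) :
    Fin.castAdd M j ∈ uG G G' ↔ j ∈ G := by
  unfold uG
  rw [Finset.mem_union, Finset.mem_map, Finset.mem_map]
  constructor
  · rintro (⟨a, ha, h⟩ | ⟨a, ha, h⟩)
    · have : a = j := by
        have := congrArg Fin.val h
        exact Fin.ext (by simpa using this)
      rw [← this]
      exact ha
    · exfalso
      have := congrArg Fin.val h
      simp at this
      omega
  · intro h
    exact Or.inl ⟨j, h, rfl⟩

lemma uG_right {N M : ℕ} (G : Finset (Fin N)) (G' : Finset (Fin M)) (j : Fin M) :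
    Fin.natAdd N j ∈ uG G G' ↔ j ∈ G' := by
  unfold uG
  rw [Finset.mem_union, Finset.mem_map, Finset.mem_map]
  constructor
  · rintro (⟨a, ha, h⟩ | ⟨a, ha, h⟩)
    · exfalso
      have := congrArg Fin.val h
      simp at this
      omega
    · have : a = j := by
        have := congrArg Fin.val h
        exact Fin.ext (by simpa using this)
      rw [← this]
      exact ha
  · intro h
    exact Or.inr ⟨j, h, rfl⟩

lemma uG_card {N M : ℕ} (G : Finset (Fin N)) (G' : Finset (Fin M)) :
    (uG G G').card ≤ G.card + G'.card := by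
  unfold uG
  refine (Finset.card_union_le _ _).trans ?_
  rw [Finset.card_map, Finset.card_map]

/-- all the outputs in one circuit -/
lemma multi (p k s d n : ℕ) : ∀ (T : ℕ) (F : Fin T → Set (V n)), (∀ j, Computed p k s d (F j)) →
    ∃ C : Circuit p n k, C.andOr.card ≤ T * s ∧ (∀ i, C.depth i ≤ d) ∧
      ∀ j, ∃ i, ∀ y, y ∈ F j ↔ C.val i y = true := by
  intro T
  induction T with
  | zero =>
    intro F hF
    refine ⟨⟨0, Fin.elim0, Fin.elim0, ∅, fun i => i.elim0⟩, by simp, fun i => i.elim0,
      fun j => j.elim0⟩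
  | succ T ih =>
    intro F hF
    obtain ⟨C, hC1, hC2, hC3⟩ := ih (fun j => F j.castSucc) (fun j => hF _)
    obtain ⟨D, hD1, hD2, i0, hD3⟩ := hF (Fin.last T)
    refine ⟨⟨C.N + D.N, Fin.addCases C.val D.val, Fin.addCases C.depth D.depth,
      uG C.andOr D.andOr, ?_⟩, ?_, ?_, ?_⟩
    · intro i
      refine Fin.addCases (fun j => ?_) (fun j => ?_) i
      · exact rule_map (p := p) (k := k) (Fin.castAddEmb D.N) (castAdd_strictMono _ _)
          (val := C.val) (val' := Fin.addCases C.val D.val)
          (fun j => Fin.addCases_left j) (depth := C.depth)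
          (depth' := Fin.addCases C.depth D.depth) (fun j => Fin.addCases_left j)
          (G := C.andOr) (G' := uG C.andOr D.andOr) (fun j => uG_left _ _ j) (C.rule j)
      · exact rule_map (p := p) (k := k) (Fin.natAddEmb C.N) (natAdd_strictMono _ _)
          (val := D.val) (val' := Fin.addCases C.val D.val)
          (fun j => Fin.addCases_right j) (depth := D.depth)
          (depth' := Fin.addCases C.depth D.depth) (fun j => Fin.addCases_right j)
          (G := D.andOr) (G' := uG C.andOr D.andOr) (fun j => uG_right _ _ j) (D.rule j)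
    · refine (uG_card _ _).trans ?_
      rw [add_mul, one_mul]
      exact Nat.add_le_add hC1 hD1
    · intro i
      refine Fin.addCases (fun j => ?_) (fun j => ?_) i
      · show Fin.addCases C.depth D.depth (Fin.castAdd D.N j) ≤ d
        rw [Fin.addCases_left]
        exact hC2 j
      · show Fin.addCases C.depth D.depth (Fin.natAdd C.N j) ≤ d
        rw [Fin.addCases_right]
        exact hD2 j
    · intro j
      refine Fin.lastCases ?_ (fun j => ?_) j
      · refine ⟨Fin.natAdd C.N i0, fun y => ?_⟩
        show y ∈ F (Fin.last T) ↔ (Fin.addCases C.val D.val (Fin.natAdd C.N i0) : V n → Bool) y = true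
        rw [Fin.addCases_right]
        exact hD3 y
      · obtain ⟨i, hi⟩ := hC3 j
        refine ⟨Fin.castAdd D.N i, fun y => ?_⟩
        show y ∈ F j.castSucc ↔ (Fin.addCases C.val D.val (Fin.castAdd D.N i) : V n → Bool) y = true
        rw [Fin.addCases_left]
        exact hi y

lemma compl_comp (p k s d n : ℕ) (S : Set (V n)) (h : Computed p k s d S) :
    Computed p k s d Sᶜ := by
  obtain ⟨C, hs, hd, i0, hi⟩ := h
  let v : Fin 1 → V n → Bool := fun _ y => !C.val i0 y
  let δ : Fin 1 → ℕ := fun _ => C.depth i0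
  refine ⟨⟨C.N + 1, Fin.addCases C.val v, Fin.addCases C.depth δ, uG C.andOr ∅, ?_⟩, ?_, ?_, ?_⟩
  · intro i
    refine Fin.addCases (fun j => ?_) (fun j => ?_) i
    · exact rule_map (p := p) (k := k) (Fin.castAddEmb 1) (castAdd_strictMono _ _)
          (val := C.val) (val' := Fin.addCases C.val v)
          (fun j => Fin.addCases_left j) (depth := C.depth)
          (depth' := Fin.addCases C.depth δ) (fun j => Fin.addCases_left j)
          (G := C.andOr) (G' := uG C.andOr ∅) (fun j => uG_left _ _ j) (C.rule j)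
    · refine Or.inr (Or.inl ⟨fun h => ?_, Fin.castAdd 1 i0, ?_, ?_, fun y => ?_⟩)
      · rw [uG_right] at h
        simp at h
      · rw [Fin.lt_def]
        simp only [Fin.val_castAdd, Fin.val_natAdd]
        have := i0.2
        omega
      · rw [Fin.addCases_left, Fin.addCases_right]
      · rw [Fin.addCases_left, Fin.addCases_right]
  · refine (uG_card _ _).trans ?_
    simpa using hs
  · intro i
    refine Fin.addCases (fun j => ?_) (fun j => ?_) i
    · show Fin.addCases C.depth δ (Fin.castAdd 1 j) ≤ d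
      rw [Fin.addCases_left]
      exact hd j
    · show Fin.addCases C.depth δ (Fin.natAdd C.N j) ≤ d
      rw [Fin.addCases_right]
      exact hd i0
  · refine ⟨Fin.natAdd C.N 0, fun y => ?_⟩
    show y ∈ Sᶜ ↔ (Fin.addCases C.val v (Fin.natAdd C.N 0) : V n → Bool) y = true
    rw [Fin.addCases_right]
    show y ∉ S ↔ (!C.val i0 y) = true
    rw [hi y]
    simp

lemma inter_comp (p k s d n T : ℕ) (F : Fin T → Set (V n)) (h : ∀ j, Computed p k s d (F j)) :
    Computed p k (T * s + 1) (d + 1) {x | ∀ j, x ∈ F j} := by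
  classical
  obtain ⟨C, hs, hd, hi⟩ := multi p k s d n T F h
  choose o ho using hi
  let J : Finset (Fin C.N) := univ.image o
  let v : Fin 1 → V n → Bool := fun _ y => decide (∀ j ∈ J, C.val j y = true)
  let δ : Fin 1 → ℕ := fun _ => d + 1
  refine ⟨⟨C.N + 1, Fin.addCases C.val v, Fin.addCases C.depth δ, uG C.andOr univ, ?_⟩,
    ?_, ?_, ?_⟩
  · intro i
    refine Fin.addCases (fun j => ?_) (fun j => ?_) i
    · exact rule_map (p := p) (k := k) (Fin.castAddEmb 1) (castAdd_strictMono _ _)
          (val := C.val) (val' := Fin.addCases C.val v)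
          (fun j => Fin.addCases_left j) (depth := C.depth)
          (depth' := Fin.addCases C.depth δ) (fun j => Fin.addCases_left j)
          (G := C.andOr) (G' := uG C.andOr univ) (fun j => uG_left _ _ j) (C.rule j)
    · refine Or.inr (Or.inr (Or.inr ⟨?_, J.map (Fin.castAddEmb 1), ?_, Or.inl fun y => ?_⟩))
      · rw [uG_right]
        exact Finset.mem_univ _
      · intro a ha
        rw [Finset.mem_map] at ha
        obtain ⟨a, _, rfl⟩ := ha
        refine ⟨?_, ?_⟩
        · rw [Fin.lt_def]
          have := a.2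
          show a.1 < _
          simp only [Fin.val_natAdd]
          omega
        · show (Fin.addCases C.depth δ (Fin.castAdd 1 a) : ℕ) <
            (Fin.addCases C.depth δ (Fin.natAdd C.N j) : ℕ)
          rw [Fin.addCases_left, Fin.addCases_right]
          exact Nat.lt_succ_of_le (hd a)
      · rw [Fin.addCases_right]
        show decide (∀ j ∈ J, C.val j y = true) = _
        congr 1
        rw [Finset.forall_mem_map]
        refine propext (forall_congr' fun a => forall_congr' fun _ => ?_)
        show _ ↔ (Fin.addCases C.val v (Fin.castAdd 1 a) : V n → Bool) y = true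
        rw [Fin.addCases_left]
  · refine (uG_card _ _).trans ?_
    rw [Finset.card_univ, Fintype.card_fin]
    exact Nat.add_le_add_right hs 1
  · intro i
    refine Fin.addCases (fun j => ?_) (fun j => ?_) i
    · show Fin.addCases C.depth δ (Fin.castAdd 1 j) ≤ d + 1
      rw [Fin.addCases_left]
      exact (hd j).trans (Nat.le_succ d)
    · show Fin.addCases C.depth δ (Fin.natAdd C.N j) ≤ d + 1
      rw [Fin.addCases_right]
  · refine ⟨Fin.natAdd C.N 0, fun y => ?_⟩
    show (∀ j, y ∈ F j) ↔ (Fin.addCases C.val v (Fin.natAdd C.N 0) : V n → Bool) y = true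
    rw [Fin.addCases_right]
    show (∀ j, y ∈ F j) ↔ decide (∀ j ∈ J, C.val j y = true) = true
    rw [decide_eq_true_iff]
    constructor
    · intro h j hj
      obtain ⟨a, _, rfl⟩ := Finset.mem_image.1 hj
      exact (ho a y).1 (h a)
    · intro h j
      exact (ho j y).2 (h (o j) (Finset.mem_image_of_mem _ (Finset.mem_univ _)))

theorem tB3 : S_B3 := ⟨compl_comp, inter_comp⟩

end Pool.Agent.K9h48.AP
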