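import Pool.Agent.K9h48.AP.B1
import Pool.Agent.W856.Corner8
import Pool.Agent.W856.Corner9

set_option autoImplicit false

namespace Pool.Agent.K9h48.AP

open Finset
open Pool.Agent.W856.Corner (V LK LB Computed piece choose_lower)

theorem tB4 : S_B4 := by
  classical
  intro p k s d N hp hp2 hk S hS c hc
  have : Fact p.Prime := ⟨hp⟩
  obtain ⟨M, hM⟩ : ∃ M, M = k * ((p - 1) * (Nat.clog 2 s + 4)) ^ d := ⟨_, rfl⟩
  rw [← hM]
  have hM1 : 1 ≤ M := by
    rw [hM]
    have h2 := hp.two_le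
    have : 1 ≤ (p - 1) * (Nat.clog 2 s + 4) := Nat.mul_pos (by omega) (by omega)
    exact Nat.mul_pos hk (pow_pos this _)
  have hMR : (1 : ℝ) ≤ M := by exact_mod_cast hM1
  have hMpos : (0 : ℝ) < M := by linarith
  have hN0 : (0 : ℝ) ≤ N := Nat.cast_nonneg N
  have hcardV : (S.ncard : ℝ) ≤ 2 ^ N := by
    have h1 : S.ncard ≤ (Set.univ : Set (V N)).ncard :=
      Set.ncard_le_ncard (Set.subset_univ _) (Set.toFinite _)
    rw [Set.ncard_univ, Nat.card_eq_fintype_card, Fintype.card_fun, ZMod.card,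
      Fintype.card_fin] at h1
    exact_mod_cast h1
  by_cases hNM : (N : ℝ) < 80 * M
  · -- trivial
    have h1 : Real.exp (-1) ≤ Real.exp (-(N : ℝ) / (204 * (M : ℝ) ^ 2)) := by
      rw [Real.exp_le_exp, neg_div, neg_le_neg_iff, div_le_one (by positivity)]
      nlinarith
    have h2 : (1 / 3 : ℝ) ≤ Real.exp (-1) := by
      rw [Real.exp_neg, one_div]
      exact inv_anti₀ (Real.exp_pos _) (by
        have := Real.exp_one_lt_d9
        linarith)
    have h3 : (1 : ℝ) ≤ 16 * (N + 1) * Real.exp (-(N : ℝ) / (204 * (M : ℝ) ^ 2)) := by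
      have h4 := h2.trans h1
      nlinarith
    calc (S.ncard : ℝ) ≤ 2 ^ N * 1 := by rw [mul_one]; exact hcardV
      _ ≤ 2 ^ N * (16 * (N + 1) * Real.exp (-(N : ℝ) / (204 * (M : ℝ) ^ 2))) :=
          mul_le_mul_of_nonneg_left h3 (by positivity)
      _ = _ := by ring
  · push Not at hNM
    set r : ℝ := 1 / (80 * M) with hr
    have hrpos : 0 < r := by positivity
    have hrM : r * (80 * M) = 1 := by
      rw [hr]
      field_simp
    have hr1 : r ≤ 1 / 80 := by
      rw [hr]
      exact one_div_le_one_div_of_le (by norm_num) (by linarith)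
    have hrN : 1 ≤ r * N := by
      calc (1 : ℝ) = r * (80 * M) := hrM.symm
        _ ≤ r * N := mul_le_mul_of_nonneg_left hNM hrpos.le
    have hN80 : (80 : ℝ) ≤ N := by nlinarith
    have hx0 : 0 ≤ (N : ℝ) / 2 - r * N - 1 := by
      have : r * N ≤ 1 / 80 * N := mul_le_mul_of_nonneg_right hr1 hN0
      linarith
    set D := ⌈(N : ℝ) / 2 - r * N - 1⌉₊ with hD
    have hD1 : (N : ℝ) / 2 - r * N - 1 ≤ D := Nat.le_ceil _
    have hD2 : (D : ℝ) < (N : ℝ) / 2 - r * N := by
      have := Nat.ceil_lt_add_one hx0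
      linarith
    have hDN : D ≤ N / 2 := by
      have h1 : (D : ℝ) * 2 ≤ N := by nlinarith
      have h2 : D * 2 ≤ N := by exact_mod_cast h1
      omega
    set m := ⌊r * N / (2 * M)⌋₊ with hm
    have hm1 : (m : ℝ) ≤ r * N / (2 * M) := Nat.floor_le (by positivity)
    have hm2 : r * N / (2 * M) < m + 1 := Nat.lt_floor_add_one _
    have hm3 : (m : ℝ) * (2 * M) ≤ r * N := by
      rwa [le_div_iff₀ (by positivity)] at hm1
    obtain ⟨g, hg1, hg2, z, hz1, hz2⟩ := piece (p := p) hS m D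
    rw [← hM] at hg1
    have hdeg : 2 * (2 * m * M + D) < N := by
      have h1 : (2 * (2 * m * M + D) : ℝ) < N := by nlinarith
      exact_mod_cast h1
    have hg0 : g = 0 := tB1 p hp2 N _ hdeg g hg1 c (fun x hx => hc x (hg2 x hx))
    have hz3 : S.ncard ≤ z := by
      have : (univ.filter fun y => g y ≠ 0).card = 0 := by
        rw [Finset.card_eq_zero, Finset.filter_eq_empty_iff]
        intro y _
        rw [hg0]
        simp
      rw [this] at hz2
      simpa using hz2
    have hch := choose_lower N D r hrpos hr1 hrN hDN hD1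
    have hsum : N.choose D ≤ ∑ i ∈ range (D + 1), N.choose i :=
      Finset.single_le_sum (f := fun i => N.choose i) (fun i _ => Nat.zero_le _)
        (Finset.mem_range.2 (Nat.lt_succ_self D))
    have hz4 : (z : ℝ) * (N.choose D : ℝ) * 4 ^ m ≤ 2 ^ N * 2 ^ N := by
      have : z * N.choose D * 4 ^ m ≤ 2 ^ N * 2 ^ N :=
        le_trans (Nat.mul_le_mul_right _ (Nat.mul_le_mul_left _ hsum)) hz1
      exact_mod_cast this
    set E := Real.exp (-(24 * r ^ 2 * N)) with hE
    have hEpos : 0 < E := Real.exp_pos _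
    have hz5 : (z : ℝ) * E * 4 ^ m ≤ (N + 1) * 2 ^ N := by
      have h1 : (2 : ℝ) ^ N * ((z : ℝ) * E * 4 ^ m) ≤ 2 ^ N * ((N + 1) * 2 ^ N) := by
        calc (2 : ℝ) ^ N * ((z : ℝ) * E * 4 ^ m) = (z * 4 ^ m) * (2 ^ N * E) := by ring
          _ ≤ (z * 4 ^ m) * ((N + 1) * N.choose D) :=
              mul_le_mul_of_nonneg_left hch (by positivity)
          _ = (N + 1) * (z * N.choose D * 4 ^ m) := by ring
          _ ≤ (N + 1) * (2 ^ N * 2 ^ N) := mul_le_mul_of_nonneg_left hz4 (by positivity)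
          _ = _ := by ring
      exact le_of_mul_le_mul_left h1 (by positivity)
    have h4m : Real.exp (Real.log 4 * (r * N / (2 * M))) ≤ 4 * 4 ^ m := by
      have h1 : (4 : ℝ) * 4 ^ m = Real.exp (Real.log 4 * (m + 1)) := by
        rw [← pow_succ', ← Real.rpow_natCast, Real.rpow_def_of_pos (by norm_num)]
        push_cast
        rfl
      rw [h1, Real.exp_le_exp]
      exact mul_le_mul_of_nonneg_left hm2.le (Real.log_nonneg (by norm_num))
    have hlog : (1.3862943606 : ℝ) ≤ Real.log 4 := by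
      have h1 : Real.log 4 = 2 * Real.log 2 := by
        rw [show (4 : ℝ) = 2 ^ 2 by norm_num, Real.log_pow]
        push_cast
        ring
      rw [h1]
      have := Real.log_two_gt_d9
      linarith
    have hexp : Real.exp ((N : ℝ) / (204 * M ^ 2)) ≤ E * (4 * 4 ^ m) := by
      have h1 : Real.exp ((N : ℝ) / (204 * M ^ 2)) ≤
          E * Real.exp (Real.log 4 * (r * N / (2 * M))) := by
        rw [hE, ← Real.exp_add, Real.exp_le_exp]
        have h2 : -(24 * r ^ 2 * N) + Real.log 4 * (r * N / (2 * M)) =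
            ((N : ℝ) / M ^ 2) * (-(24 / 6400) + Real.log 4 / 160) := by
          rw [hr]
          field_simp
          ring
        rw [h2]
        have h3 : (N : ℝ) / (204 * M ^ 2) = ((N : ℝ) / M ^ 2) * (1 / 204) := by
          field_simp
        rw [h3]
        refine mul_le_mul_of_nonneg_left ?_ (by positivity)
        have h5 : (1 / 204 : ℝ) ≤ -(24 / 6400) + 1.3862943606 / 160 := by norm_num
        linarith
      exact h1.trans (mul_le_mul_of_nonneg_left h4m hEpos.le)
    have hfin : (z : ℝ) * Real.exp ((N : ℝ) / (204 * M ^ 2)) ≤ 4 * ((N + 1) * 2 ^ N) := by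
      calc (z : ℝ) * Real.exp ((N : ℝ) / (204 * M ^ 2)) ≤ z * (E * (4 * 4 ^ m)) :=
            mul_le_mul_of_nonneg_left hexp (Nat.cast_nonneg _)
        _ = 4 * ((z : ℝ) * E * 4 ^ m) := by ring
        _ ≤ 4 * ((N + 1) * 2 ^ N) := mul_le_mul_of_nonneg_left hz5 (by norm_num)
    have hfin2 : (z : ℝ) ≤ 4 * ((N + 1) * 2 ^ N) * Real.exp (-(N : ℝ) / (204 * M ^ 2)) := by
      rw [neg_div, Real.exp_neg, ← div_eq_mul_inv, le_div_iff₀ (Real.exp_pos _)]
      exact hfin
    have hzR : (S.ncard : ℝ) ≤ z := by exact_mod_cast hz3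
    calc (S.ncard : ℝ) ≤ 4 * ((N + 1) * 2 ^ N) * Real.exp (-(N : ℝ) / (204 * M ^ 2)) :=
          hzR.trans hfin2
      _ ≤ 16 * (N + 1) * 2 ^ N * Real.exp (-(N : ℝ) / (204 * M ^ 2)) := by
          refine mul_le_mul_of_nonneg_right ?_ (Real.exp_pos _).le
          have : (0 : ℝ) ≤ (N + 1) * 2 ^ N := by positivity
          nlinarith

end Pool.Agent.K9h48.AP
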