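import Pool.Agent.K9h48.AP.Stm

set_option autoImplicit false

namespace Pool.Agent.K9h48.AP

open Finset
open Pool.Agent.H699R2.OMV (Prog Vec Mat IsProb before)
open Pool.Agent.W856.Corner (Computed V LK LB)

theorem tB5 (h3 : S_B3) : S_B5 := by
  classical
  intro p kk s d N w A O f hf β P tt b hb0 hb
  obtain ⟨Tm, hTm⟩ : ∃ Tm, Tm = w * tt := ⟨_, rfl⟩
  rw [← hTm] at hb
  have key : ∀ (P : Prog A (Fin w → Bool) (Option O)) (t T0 : ℕ) (F : Fin T0 → Set (V N)),
      (∀ j, Computed p kk s d (F j)) → T0 + w * t ≤ Tm →
      (∀ x : V N, (∀ j, x ∈ F j) → ∀ o : O, P.out (fun a i => f a i x) = some o →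
        ∑ i, x i = β o) →
      (Set.ncard {x : V N | (∀ j, x ∈ F j) ∧ (P.out (fun a i => f a i x)).isSome = true ∧
        (P.addrs (fun a i => f a i x)).length ≤ t} : ℝ) ≤ 2 ^ (w * t) * b := by
    intro P
    induction P with
    | done o =>
      intro t T0 F hF hT H
      have h2 : b ≤ 2 ^ (w * t) * b := by
        have : (1 : ℝ) ≤ 2 ^ (w * t) := one_le_pow₀ (by norm_num)
        nlinarith
      rcases o with _ | o
      · have : {x : V N | (∀ j, x ∈ F j) ∧
            ((Prog.done none : Prog A (Fin w → Bool) (Option O)).out
              (fun a i => f a i x)).isSome = true ∧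
            ((Prog.done none : Prog A (Fin w → Bool) (Option O)).addrs
              (fun a i => f a i x)).length ≤ t} = ∅ := by
          ext x
          simp [Prog.out]
        rw [this]
        simp only [Set.ncard_empty, Nat.cast_zero]
        exact hb0.trans h2
      · have h4 := hb T0 F (by omega) hF (β o) (fun x hx => H x hx o rfl)
        refine le_trans ?_ (h4.trans h2)
        have h5 : Set.ncard {x : V N | (∀ j, x ∈ F j) ∧
            ((Prog.done (some o) : Prog A (Fin w → Bool) (Option O)).out
              (fun a i => f a i x)).isSome = true ∧
            ((Prog.done (some o) : Prog A (Fin w → Bool) (Option O)).addrs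
              (fun a i => f a i x)).length ≤ t} ≤ Set.ncard {x | ∀ j, x ∈ F j} :=
          Set.ncard_le_ncard (fun x hx => hx.1) (Set.toFinite _)
        exact_mod_cast h5
    | probe a k ih =>
      intro t T0 F hF hT H
      rcases t with _ | t
      · have : {x : V N | (∀ j, x ∈ F j) ∧
            ((Prog.probe a k : Prog A (Fin w → Bool) (Option O)).out
              (fun a i => f a i x)).isSome = true ∧
            ((Prog.probe a k : Prog A (Fin w → Bool) (Option O)).addrs
              (fun a i => f a i x)).length ≤ 0} = ∅ := by
          ext x
          simp [Prog.addrs]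
        rw [this]
        simp only [Set.ncard_empty, Nat.cast_zero]
        positivity
      · let F1 : (Fin w → Bool) → Fin (T0 + w) → Set (V N) := fun c =>
          Fin.addCases F (fun i => {x | f a i x = c i})
        have hF1 : ∀ c j, Computed p kk s d (F1 c j) := by
          intro c j
          refine Fin.addCases (fun j => ?_) (fun i => ?_) j
          · show Computed p _ s d (F1 c (Fin.castAdd w j))
            simp only [F1, Fin.addCases_left]
            exact hF j
          · show Computed p _ s d (F1 c (Fin.natAdd T0 i))
            simp only [F1, Fin.addCases_right]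
            cases hc : c i
            · have h6 := h3.1 _ _ _ _ _ _ (hf a i)
              refine (congrArg (Computed p _ s d) ?_).mp h6
              ext x
              simp
            · exact hf a i
        have hmem : ∀ (c : Fin w → Bool) (x : V N), (∀ j, x ∈ F1 c j) ↔
            (∀ j, x ∈ F j) ∧ ∀ i, f a i x = c i := by
          intro c x
          constructor
          · intro h
            refine ⟨fun j => ?_, fun i => ?_⟩
            · have := h (Fin.castAdd w j)
              simpa only [F1, Fin.addCases_left] using this
            · have := h (Fin.natAdd T0 i)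
              simp only [F1, Fin.addCases_right] at this
              exact this
          · rintro ⟨h, h'⟩ j
            refine Fin.addCases (fun j => ?_) (fun i => ?_) j
            · simp only [F1, Fin.addCases_left]
              exact h j
            · simp only [F1, Fin.addCases_right]
              exact h' i
        have hcov : {x : V N | (∀ j, x ∈ F j) ∧
            ((Prog.probe a k : Prog A (Fin w → Bool) (Option O)).out
              (fun a i => f a i x)).isSome = true ∧
            ((Prog.probe a k : Prog A (Fin w → Bool) (Option O)).addrs
              (fun a i => f a i x)).length ≤ t + 1} ⊆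
            ⋃ c ∈ (univ : Finset (Fin w → Bool)), {x : V N | (∀ j, x ∈ F1 c j) ∧
              ((k c).out (fun a i => f a i x)).isSome = true ∧
              ((k c).addrs (fun a i => f a i x)).length ≤ t} := by
          intro x hx
          obtain ⟨hx1, hx2, hx3⟩ := hx
          simp only [Set.mem_iUnion]
          refine ⟨fun i => f a i x, Finset.mem_univ _, (hmem _ x).2 ⟨hx1, fun i => rfl⟩, hx2, ?_⟩
          simpa [Prog.addrs] using hx3
        have h7 : Set.ncard {x : V N | (∀ j, x ∈ F j) ∧
            ((Prog.probe a k : Prog A (Fin w → Bool) (Option O)).out
              (fun a i => f a i x)).isSome = true ∧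
            ((Prog.probe a k : Prog A (Fin w → Bool) (Option O)).addrs
              (fun a i => f a i x)).length ≤ t + 1} ≤
            ∑ c : Fin w → Bool, Set.ncard {x : V N | (∀ j, x ∈ F1 c j) ∧
              ((k c).out (fun a i => f a i x)).isSome = true ∧
              ((k c).addrs (fun a i => f a i x)).length ≤ t} := by
          refine (Set.ncard_le_ncard hcov (Set.toFinite _)).trans ?_
          exact Finset.set_ncard_biUnion_le _ _
        calc (Set.ncard {x : V N | (∀ j, x ∈ F j) ∧
            ((Prog.probe a k : Prog A (Fin w → Bool) (Option O)).out
              (fun a i => f a i x)).isSome = true ∧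
            ((Prog.probe a k : Prog A (Fin w → Bool) (Option O)).addrs
              (fun a i => f a i x)).length ≤ t + 1} : ℝ) ≤
            ∑ c : Fin w → Bool, (Set.ncard {x : V N | (∀ j, x ∈ F1 c j) ∧
              ((k c).out (fun a i => f a i x)).isSome = true ∧
              ((k c).addrs (fun a i => f a i x)).length ≤ t} : ℝ) := by exact_mod_cast h7
          _ ≤ ∑ _c : Fin w → Bool, 2 ^ (w * t) * b := by
              refine Finset.sum_le_sum fun c _ => ih c t (T0 + w) (F1 c) (hF1 c) ?_ ?_
              · have : w * (t + 1) = w * t + w := by ring
                omega
              · intro x hx o ho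
                obtain ⟨h8, h9⟩ := (hmem c x).1 hx
                refine H x h8 o ?_
                have h10 : (fun i => f a i x) = c := funext h9
                show (k (fun i => f a i x)).out _ = some o
                rw [h10]
                exact ho
          _ = 2 ^ (w * (t + 1)) * b := by
              rw [Finset.sum_const, Finset.card_univ, Fintype.card_fun, Fintype.card_bool,
                Fintype.card_fin, nsmul_eq_mul, Nat.cast_pow, Nat.cast_ofNat, mul_add, mul_one,
                pow_add]
              ring
  intro H
  have h1 := key P tt 0 Fin.elim0 (fun j => j.elim0) (by omega) (fun x _ o ho => H x o ho)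
  refine le_trans (le_of_eq ?_) h1
  congr 2
  ext x
  simp
end Pool.Agent.K9h48.AP
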