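import Pool.Agent.K9h48.AP.Stm

set_option autoImplicit false

namespace Pool.Agent.K9h48.AP

open Finset
open Pool.Agent.W856.Corner (V)

lemma ovr_apply {N N' : ℕ} {e : Fin N' → Fin N} (he : Function.Injective e) (x : V N) (y : V N')
    (j : Fin N') : ovr e x y (e j) = y j := by
  classical
  have h : ∃ j', e j' = e j := ⟨j, rfl⟩
  unfold ovr
  rw [dif_pos h]
  congr 1
  exact he h.choose_spec

lemma ovr_off {N N' : ℕ} {e : Fin N' → Fin N} (x : V N) (y : V N')
    {i : Fin N} (h : ¬ ∃ j, e j = i) : ovr e x y i = x i := by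
  classical
  unfold ovr
  rw [dif_neg h]

/-- overwriting is a bijection of the pairs, up to exchange -/
lemma ovr_bij {N N' : ℕ} {e : Fin N' → Fin N} (he : Function.Injective e) :
    Function.Bijective (fun z : V N × V N' => ((ovr e z.1 z.2, fun j => z.1 (e j)) : V N × V N')) := by
  have hinv : Function.Involutive
      (fun z : V N × V N' => ((ovr e z.1 z.2, fun j => z.1 (e j)) : V N × V N')) := by
    rintro ⟨x, y⟩
    simp only
    refine Prod.ext ?_ ?_
    · funext i
      by_cases h : ∃ j, e j = i
      · obtain ⟨j, rfl⟩ := h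
        simp only
        rw [ovr_apply he]
      · simp only
        rw [ovr_off _ _ h, ovr_off _ _ h]
    · funext j
      simp only
      rw [ovr_apply he]
  exact hinv.bijective

theorem tB6 : S_B6 := by
  classical
  intro N N' e he Q b hb
  have h1 : (Set.ncard {x : V N | Q x} : ℝ) * 2 ^ N' =
      (Set.ncard {z : V N × V N' | Q z.1} : ℝ) := by
    have h2 : {z : V N × V N' | Q z.1} = {x : V N | Q x} ×ˢ (Set.univ : Set (V N')) := by
      ext z
      simp
    rw [h2, Set.ncard_prod, Set.ncard_univ, Nat.card_eq_fintype_card, Fintype.card_fun, ZMod.card,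
      Fintype.card_fin]
    push_cast
    rfl
  have h3 : Set.ncard {z : V N × V N' | Q z.1} = Set.ncard {z : V N × V N' | Q (ovr e z.1 z.2)} := by
    symm
    have h4 : {z : V N × V N' | Q (ovr e z.1 z.2)} =
        (fun z : V N × V N' => ((ovr e z.1 z.2, fun j => z.1 (e j)) : V N × V N')) ⁻¹'
          {z : V N × V N' | Q z.1} := by
      ext z
      simp
    rw [h4, Set.ncard_preimage_of_injective_subset_range (ovr_bij he).1]
    rw [(ovr_bij he).2.range_eq]
    exact Set.subset_univ _
  have h5 : Set.ncard {z : V N × V N' | Q (ovr e z.1 z.2)} =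
      ∑ x : V N, Set.ncard {y : V N' | Q (ovr e x y)} := by
    rw [Set.ncard_eq_toFinset_card', Finset.card_eq_sum_card_fiberwise
      (f := fun z : V N × V N' => z.1) (t := (univ : Finset (V N))) (fun _ _ => Finset.mem_univ _)]
    refine Finset.sum_congr rfl fun x _ => ?_
    rw [Set.ncard_eq_toFinset_card']
    symm
    refine Finset.card_bij (fun y _ => (x, y)) ?_ ?_ ?_
    · intro y hy
      simp only [Set.mem_toFinset, Set.mem_ofPred_eq] at hy
      simp only [Finset.mem_filter, Set.mem_toFinset, Set.mem_ofPred_eq]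
      exact ⟨hy, trivial⟩
    · intro y _ y' _ h
      exact (Prod.ext_iff.1 h).2
    · rintro ⟨x', y⟩ hz
      simp only [Finset.mem_filter, Set.mem_toFinset, Set.mem_ofPred_eq] at hz
      obtain ⟨hz1, rfl⟩ := hz
      refine ⟨y, ?_, rfl⟩
      simp only [Set.mem_toFinset, Set.mem_ofPred_eq]
      exact hz1
  rw [h1, h3, h5]
  push_cast
  calc ∑ x : V N, (Set.ncard {y : V N' | Q (ovr e x y)} : ℝ) ≤ ∑ _x : V N, b :=
        Finset.sum_le_sum fun x _ => hb x
    _ = 2 ^ N * b := by
        rw [Finset.sum_const, Finset.card_univ, Fintype.card_fun, ZMod.card, Fintype.card_fin,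
          nsmul_eq_mul]
        push_cast
        rfl

end Pool.Agent.K9h48.AP
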