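import Pool.Agent.K9h48.AP.B1
import Pool.Agent.W856.Corner8
import Pool.Agent.W856.Corner9

/-!
# Sets computed by circuits and parity: few points of the wrong parity or few points
-/

set_option autoImplicit false

namespace Pool.Agent.K9h48.AP

open Finset
open Pool.Agent.W856.Corner (V LK LB Computed bi bi_ne_zero LK_mul LK_mono amplify exists_vanish
  choose_lower)

/-- If `2 (2 m M + D) < N`, a set computed by a circuit has few points, up to its closure. -/
lemma c4_comb {p k s d N : ℕ} [Fact p.Prime] (hp2 : p ≠ 2) {S : Set (V N)}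
    (hS : Computed p k s d S) (c : ZMod 2) (M m D : ℕ)
    (hM : k * ((p - 1) * (Nat.clog 2 s + 4)) ^ d ≤ M) (hdeg : 2 * (2 * m * M + D) < N) :
    ∃ z : ℕ, S.ncard ≤ z ∧ z * N.choose D * 4 ^ m ≤
      2 ^ N * (2 ^ N + Set.ncard {x | x ∈ S ∧ ∑ i, x i ≠ c} * 4 ^ m) := by
  classical
  obtain ⟨f, g, hf, hg, hE⟩ := amplify (p := p) hS m
  set E := univ.filter fun y => g y ≠ f y with hEdef
  set W : Finset (V N) := univ.filter fun y => f y = true with hW
  set W0 : Finset (V N) := univ.filter fun y => f y = true ∧ ∑ i, y i ≠ c with hW0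
  obtain ⟨h', hh', hvan, z, hz1, hz2⟩ := exists_vanish (K := ZMod p) D (E ∪ W0) W
  have hgood : ∀ y, h' y ≠ 0 → y ∉ E ∧ y ∉ W0 := by
    intro y hy
    refine ⟨fun h => hy (hvan y (Finset.mem_union_left _ h)), fun h => hy (hvan y
      (Finset.mem_union_right _ h))⟩
  have hprod : (fun y => bi (ZMod p) (g y)) * h' ∈ LK (ZMod p) N (2 * m * M + D) := by
    refine LK_mul (LK_mono (Nat.mul_le_mul_left _ hM) hg) hh'
  have hzero : (fun y => bi (ZMod p) (g y)) * h' = 0 := by
    refine tB1 p hp2 N _ hdeg _ hprod c fun y hy => ?_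
    rw [Pi.mul_apply, mul_ne_zero_iff, bi_ne_zero] at hy
    obtain ⟨h1, h2⟩ := hy
    obtain ⟨h3, h4⟩ := hgood y h2
    have h5 : g y = f y := by
      by_contra h6
      exact h3 (Finset.mem_filter.2 ⟨Finset.mem_univ _, h6⟩)
    by_contra h6
    exact h4 (Finset.mem_filter.2 ⟨Finset.mem_univ _, h5 ▸ h1, h6⟩)
  have hemp : (W.filter fun y => h' y ≠ 0).card = 0 := by
    rw [Finset.card_eq_zero, Finset.filter_eq_empty_iff]
    intro y hy hy2
    obtain ⟨h3, h4⟩ := hgood y hy2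
    have h5 : g y = f y := by
      by_contra h6
      exact h3 (Finset.mem_filter.2 ⟨Finset.mem_univ _, h6⟩)
    have h6 : f y = true := (Finset.mem_filter.1 hy).2
    have h7 := congrFun hzero y
    rw [Pi.mul_apply, h5, h6] at h7
    simp only [bi, if_true, one_mul, Pi.zero_apply] at h7
    exact hy2 h7
  have e1 : S.ncard = W.card := by
    rw [← Set.ncard_coe_finset]
    congr 1
    ext y
    rw [Finset.mem_coe, hW, Finset.mem_filter, hf y]
    simp
  have e2 : Set.ncard {x | x ∈ S ∧ ∑ i, x i ≠ c} = W0.card := by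
    rw [← Set.ncard_coe_finset]
    congr 1
    ext y
    rw [Finset.mem_coe, hW0, Finset.mem_filter]
    show (y ∈ S ∧ _) ↔ _
    rw [hf y]
    simp
  refine ⟨z, ?_, ?_⟩
  · rw [e1]
    omega
  · have hsum : N.choose D ≤ ∑ i ∈ range (D + 1), N.choose i :=
      Finset.single_le_sum (f := fun i => N.choose i) (fun i _ => Nat.zero_le _)
        (Finset.mem_range.2 (Nat.lt_succ_self D))
    calc z * N.choose D * 4 ^ m ≤ (z * ∑ i ∈ range (D + 1), N.choose i) * 4 ^ m :=
          Nat.mul_le_mul_right _ (Nat.mul_le_mul_left _ hsum)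
      _ ≤ (2 ^ N * (E ∪ W0).card) * 4 ^ m := Nat.mul_le_mul_right _ hz1
      _ ≤ (2 ^ N * (E.card + W0.card)) * 4 ^ m :=
          Nat.mul_le_mul_right _ (Nat.mul_le_mul_left _ (Finset.card_union_le _ _))
      _ = 2 ^ N * (E.card * 4 ^ m + W0.card * 4 ^ m) := by ring
      _ ≤ _ := by
          rw [e2]
          exact Nat.mul_le_mul_left _ (Nat.add_le_add_right hE _)

theorem c4 {p k s d N : ℕ} (hp : p.Prime) (hp2 : p ≠ 2) {S : Set (V N)}
    (hS : Computed p k s d S) (c : ZMod 2) (M : ℕ) (hM1 : 1 ≤ M)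
    (hM : k * ((p - 1) * (Nat.clog 2 s + 4)) ^ d ≤ M) (r : ℝ) (hr0 : 0 < r)
    (hr : 80 * (r * M) ≤ 1) :
    (S.ncard : ℝ) ≤ (N + 1) * Real.exp (24 * r ^ 2 * N) *
        (Set.ncard {x | x ∈ S ∧ ∑ i, x i ≠ c} : ℝ) +
      4 * (N + 1) * 2 ^ N * Real.exp (24 * r ^ 2 * N - 0.693147 * (r * N / M)) := by
  classical
  have : Fact p.Prime := ⟨hp⟩
  have hMR : (1 : ℝ) ≤ M := by exact_mod_cast hM1
  have hMpos : (0 : ℝ) < M := by linarith
  have hN0 : (0 : ℝ) ≤ N := Nat.cast_nonneg N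
  obtain ⟨W0, hW0⟩ : ∃ W0 : ℕ, W0 = Set.ncard {x | x ∈ S ∧ ∑ i, x i ≠ c} := ⟨_, rfl⟩
  rw [← hW0]
  have hcardV : (S.ncard : ℝ) ≤ 2 ^ N := by
    have h1 : S.ncard ≤ (Set.univ : Set (V N)).ncard :=
      Set.ncard_le_ncard (Set.subset_univ _) (Set.toFinite _)
    rw [Set.ncard_univ, Nat.card_eq_fintype_card, Fintype.card_fun, ZMod.card,
      Fintype.card_fin] at h1
    exact_mod_cast h1
  have hfirst : (0 : ℝ) ≤ (N + 1) * Real.exp (24 * r ^ 2 * N) * (W0 : ℝ) := by positivity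
  by_cases hrN : r * N < 1
  · -- trivial
    have h1 : Real.exp (-1) ≤ Real.exp (24 * r ^ 2 * N - 0.693147 * (r * N / M)) := by
      rw [Real.exp_le_exp]
      have h2 : r * N / M ≤ 1 := by
        rw [div_le_one hMpos]
        linarith
      have h3 : 0 ≤ 24 * r ^ 2 * N := by positivity
      linarith
    have h2 : (1 / 3 : ℝ) ≤ Real.exp (-1) := by
      rw [Real.exp_neg, one_div]
      exact inv_anti₀ (Real.exp_pos _) (by
        have := Real.exp_one_lt_d9
        linarith)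
    have h3 : (1 : ℝ) ≤ 4 * (N + 1) * Real.exp (24 * r ^ 2 * N - 0.693147 * (r * N / M)) := by
      have h4 := h2.trans h1
      nlinarith
    calc (S.ncard : ℝ) ≤ 2 ^ N * 1 := by rw [mul_one]; exact hcardV
      _ ≤ 2 ^ N * (4 * (N + 1) * Real.exp (24 * r ^ 2 * N - 0.693147 * (r * N / M))) :=
          mul_le_mul_of_nonneg_left h3 (by positivity)
      _ = 4 * (N + 1) * 2 ^ N * Real.exp (24 * r ^ 2 * N - 0.693147 * (r * N / M)) := by ring
      _ ≤ _ := by linarith
  · push Not at hrN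
    have hr1 : r ≤ 1 / 80 := by nlinarith
    have hN80 : (80 : ℝ) ≤ N := by nlinarith
    have hx0 : 0 ≤ (N : ℝ) / 2 - r * N - 1 := by
      have : r * N ≤ 1 / 80 * N := mul_le_mul_of_nonneg_right hr1 hN0
      linarith
    set D := ⌈(N : ℝ) / 2 - r * N - 1⌉₊ with hD
    have hD1 : (N : ℝ) / 2 - r * N - 1 ≤ D := Nat.le_ceil _
    have hD2 : (D : ℝ) < (N : ℝ) / 2 - r * N := by
      have := Nat.ceil_lt_add_one hx0
      linarith
    have hDN : D ≤ N / 2 := by
      have h1 : (D : ℝ) * 2 ≤ N := by nlinarith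
      have h2 : D * 2 ≤ N := by exact_mod_cast h1
      omega
    set m := ⌊r * N / (2 * M)⌋₊ with hm
    have hm1 : (m : ℝ) ≤ r * N / (2 * M) := Nat.floor_le (by positivity)
    have hm2 : r * N / (2 * M) < m + 1 := Nat.lt_floor_add_one _
    have hm3 : (m : ℝ) * (2 * M) ≤ r * N := by
      rwa [le_div_iff₀ (by positivity)] at hm1
    have hdeg : 2 * (2 * m * M + D) < N := by
      have h1 : (2 * (2 * m * M + D) : ℝ) < N := by nlinarith
      exact_mod_cast h1
    obtain ⟨z, hz2, hz1⟩ := c4_comb hp2 hS c M m D hM hdeg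
    rw [← hW0] at hz1
    have hch := choose_lower N D r hr0 hr1 hrN hDN hD1
    have hz4 : (z : ℝ) * (N.choose D : ℝ) * 4 ^ m ≤ 2 ^ N * (2 ^ N + W0 * 4 ^ m) := by
      exact_mod_cast hz1
    set E := Real.exp (-(24 * r ^ 2 * N)) with hE
    have hEpos : 0 < E := Real.exp_pos _
    have hz5 : (z : ℝ) * E * 4 ^ m ≤ (N + 1) * (2 ^ N + W0 * 4 ^ m) := by
      have h1 : (2 : ℝ) ^ N * ((z : ℝ) * E * 4 ^ m) ≤
          2 ^ N * ((N + 1) * (2 ^ N + W0 * 4 ^ m)) := by
        calc (2 : ℝ) ^ N * ((z : ℝ) * E * 4 ^ m) = (z * 4 ^ m) * (2 ^ N * E) := by ring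
          _ ≤ (z * 4 ^ m) * ((N + 1) * N.choose D) :=
              mul_le_mul_of_nonneg_left hch (by positivity)
          _ = (N + 1) * (z * N.choose D * 4 ^ m) := by ring
          _ ≤ (N + 1) * (2 ^ N * (2 ^ N + W0 * 4 ^ m)) :=
              mul_le_mul_of_nonneg_left hz4 (by positivity)
          _ = _ := by ring
      exact le_of_mul_le_mul_left h1 (by positivity)
    have h4pos : (0 : ℝ) < 4 ^ m := by positivity
    have h4m : Real.exp (Real.log 4 * (r * N / (2 * M))) ≤ 4 * 4 ^ m := by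
      have h1 : (4 : ℝ) * 4 ^ m = Real.exp (Real.log 4 * (m + 1)) := by
        rw [← pow_succ', ← Real.rpow_natCast, Real.rpow_def_of_pos (by norm_num)]
        push_cast
        rfl
      rw [h1, Real.exp_le_exp]
      exact mul_le_mul_of_nonneg_left hm2.le (Real.log_nonneg (by norm_num))
    have hlog : Real.log 4 = 2 * Real.log 2 := by
      rw [show (4 : ℝ) = 2 ^ 2 by norm_num, Real.log_pow]
      push_cast
      ring
    have h4m' : (1 : ℝ) / 4 ^ m ≤ 4 * Real.exp (-(0.693147 * (r * N / M))) := by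
      have h1 : Real.exp (0.693147 * (r * N / M)) ≤ 4 * 4 ^ m := by
        refine le_trans ?_ h4m
        rw [Real.exp_le_exp, hlog]
        have h2 : 2 * Real.log 2 * (r * N / (2 * M)) = Real.log 2 * (r * N / M) := by
          field_simp
        rw [h2]
        have h3 := Real.log_two_gt_d9
        exact mul_le_mul_of_nonneg_right (by linarith) (by positivity)
      rw [Real.exp_neg, ← div_eq_mul_inv, div_le_div_iff₀ h4pos (Real.exp_pos _), one_mul]
      exact h1
    have hEinv : E * Real.exp (24 * r ^ 2 * N) = 1 := by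
      rw [hE, ← Real.exp_add, neg_add_cancel, Real.exp_zero]
    have hz6 : (z : ℝ) ≤ (N + 1) * Real.exp (24 * r ^ 2 * N) * (W0 + 2 ^ N * (1 / 4 ^ m)) := by
      have h1 : (z : ℝ) * (E * 4 ^ m) ≤
          ((N + 1) * Real.exp (24 * r ^ 2 * N) * (W0 + 2 ^ N * (1 / 4 ^ m))) * (E * 4 ^ m) := by
        have h2 : ((N + 1) * Real.exp (24 * r ^ 2 * N) * (W0 + 2 ^ N * (1 / 4 ^ m))) *
            (E * 4 ^ m) = (N + 1) * (2 ^ N + W0 * 4 ^ m) * (E * Real.exp (24 * r ^ 2 * N)) := by
          field_simp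
          ring
        rw [h2, hEinv, mul_one]
        linarith
      exact le_of_mul_le_mul_right h1 (by positivity)
    have hzR : (S.ncard : ℝ) ≤ z := by exact_mod_cast hz2
    calc (S.ncard : ℝ) ≤ (N + 1) * Real.exp (24 * r ^ 2 * N) * (W0 + 2 ^ N * (1 / 4 ^ m)) :=
          hzR.trans hz6
      _ ≤ (N + 1) * Real.exp (24 * r ^ 2 * N) * (W0 + 2 ^ N *
          (4 * Real.exp (-(0.693147 * (r * N / M))))) := by
          refine mul_le_mul_of_nonneg_left ?_ (by positivity)
          exact add_le_add_right (mul_le_mul_of_nonneg_left h4m' (by positivity)) _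
      _ = _ := by
          rw [sub_eq_add_neg, Real.exp_add]
          ring

end Pool.Agent.K9h48.AP
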