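import Pool.Agent.K9h48.AP.B3

/-!
# Induction on the program, with wrong answers
-/

set_option autoImplicit false

namespace Pool.Agent.K9h48.AP

open Finset
open Pool.Agent.H699R2.OMV (Prog Vec Mat IsProb before)
open Pool.Agent.W856.Corner (Computed V LK LB)

theorem c5 {p kk s d N w : ℕ} {A O : Type} (f : A → Fin w → V N → Bool)
    (hf : ∀ a i, Computed p kk s d {x | f a i x = true}) (β : O → ZMod 2)
    (P : Prog A (Fin w → Bool) (Option O)) (tt : ℕ) (K b : ℝ) (hK : 0 ≤ K) (hb0 : 0 ≤ b)
    (hb : ∀ (T : ℕ) (F : Fin T → Set (V N)), T ≤ w * tt → (∀ j, Computed p kk s d (F j)) →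
      ∀ c : ZMod 2, (Set.ncard {x | ∀ j, x ∈ F j} : ℝ) ≤
        K * (Set.ncard {x | (∀ j, x ∈ F j) ∧ ∑ i, x i ≠ c} : ℝ) + b) :
    (Set.ncard {x : V N | (P.out (fun a i => f a i x)).isSome = true ∧
      (P.addrs (fun a i => f a i x)).length ≤ tt} : ℝ) ≤
      K * (Set.ncard {x : V N | ∃ o, P.out (fun a i => f a i x) = some o ∧ ∑ i, x i ≠ β o} : ℝ) +
        2 ^ (w * tt) * b := by
  classical
  obtain ⟨Tm, hTm⟩ : ∃ Tm, Tm = w * tt := ⟨_, rfl⟩
  rw [← hTm] at hb
  have key : ∀ (P : Prog A (Fin w → Bool) (Option O)) (t T0 : ℕ) (F : Fin T0 → Set (V N)),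
      (∀ j, Computed p kk s d (F j)) → T0 + w * t ≤ Tm →
      (Set.ncard {x : V N | (∀ j, x ∈ F j) ∧ (P.out (fun a i => f a i x)).isSome = true ∧
        (P.addrs (fun a i => f a i x)).length ≤ t} : ℝ) ≤
      K * (Set.ncard {x : V N | (∀ j, x ∈ F j) ∧
        ∃ o, P.out (fun a i => f a i x) = some o ∧ ∑ i, x i ≠ β o} : ℝ) +
        2 ^ (w * t) * b := by
    intro P
    induction P with
    | done o =>
      intro t T0 F hF hT
      have h2 : b ≤ 2 ^ (w * t) * b := by
        have : (1 : ℝ) ≤ 2 ^ (w * t) := one_le_pow₀ (by norm_num)
        nlinarith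
      rcases o with _ | o
      · have : {x : V N | (∀ j, x ∈ F j) ∧
            ((Prog.done none : Prog A (Fin w → Bool) (Option O)).out
              (fun a i => f a i x)).isSome = true ∧
            ((Prog.done none : Prog A (Fin w → Bool) (Option O)).addrs
              (fun a i => f a i x)).length ≤ t} = ∅ := by
          ext x
          simp [Prog.out]
        rw [this]
        simp only [Set.ncard_empty, Nat.cast_zero]
        have h3 : 0 ≤ K * (Set.ncard {x : V N | (∀ j, x ∈ F j) ∧
          ∃ o, (Prog.done none : Prog A (Fin w → Bool) (Option O)).out (fun a i => f a i x) =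
            some o ∧ ∑ i, x i ≠ β o} : ℝ) := mul_nonneg hK (Nat.cast_nonneg _)
        linarith
      · have h4 := hb T0 F (by omega) hF (β o)
        have h5 : Set.ncard {x : V N | (∀ j, x ∈ F j) ∧
            ((Prog.done (some o) : Prog A (Fin w → Bool) (Option O)).out
              (fun a i => f a i x)).isSome = true ∧
            ((Prog.done (some o) : Prog A (Fin w → Bool) (Option O)).addrs
              (fun a i => f a i x)).length ≤ t} ≤ Set.ncard {x | ∀ j, x ∈ F j} :=
          Set.ncard_le_ncard (fun x hx => hx.1) (Set.toFinite _)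
        have h6 : Set.ncard {x : V N | (∀ j, x ∈ F j) ∧ ∑ i, x i ≠ β o} ≤
            Set.ncard {x : V N | (∀ j, x ∈ F j) ∧
              ∃ o', (Prog.done (some o) : Prog A (Fin w → Bool) (Option O)).out
                (fun a i => f a i x) = some o' ∧ ∑ i, x i ≠ β o'} :=
          Set.ncard_le_ncard (fun x hx => ⟨hx.1, o, rfl, hx.2⟩) (Set.toFinite _)
        have h5' : (Set.ncard {x : V N | (∀ j, x ∈ F j) ∧
            ((Prog.done (some o) : Prog A (Fin w → Bool) (Option O)).out
              (fun a i => f a i x)).isSome = true ∧
            ((Prog.done (some o) : Prog A (Fin w → Bool) (Option O)).addrs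
              (fun a i => f a i x)).length ≤ t} : ℝ) ≤ (Set.ncard {x | ∀ j, x ∈ F j} : ℝ) := by
          exact_mod_cast h5
        have h6' : K * (Set.ncard {x : V N | (∀ j, x ∈ F j) ∧ ∑ i, x i ≠ β o} : ℝ) ≤
            K * (Set.ncard {x : V N | (∀ j, x ∈ F j) ∧
              ∃ o', (Prog.done (some o) : Prog A (Fin w → Bool) (Option O)).out
                (fun a i => f a i x) = some o' ∧ ∑ i, x i ≠ β o'} : ℝ) :=
          mul_le_mul_of_nonneg_left (by exact_mod_cast h6) hK
        linarith
    | probe a k ih =>
      intro t T0 F hF hT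
      rcases t with _ | t
      · have : {x : V N | (∀ j, x ∈ F j) ∧
            ((Prog.probe a k : Prog A (Fin w → Bool) (Option O)).out
              (fun a i => f a i x)).isSome = true ∧
            ((Prog.probe a k : Prog A (Fin w → Bool) (Option O)).addrs
              (fun a i => f a i x)).length ≤ 0} = ∅ := by
          ext x
          simp [Prog.addrs]
        rw [this]
        simp only [Set.ncard_empty, Nat.cast_zero]
        have h3 : 0 ≤ K * (Set.ncard {x : V N | (∀ j, x ∈ F j) ∧
          ∃ o, (Prog.probe a k : Prog A (Fin w → Bool) (Option O)).out (fun a i => f a i x) =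
            some o ∧ ∑ i, x i ≠ β o} : ℝ) := mul_nonneg hK (Nat.cast_nonneg _)
        positivity
      · let F1 : (Fin w → Bool) → Fin (T0 + w) → Set (V N) := fun c =>
          Fin.addCases F (fun i => {x | f a i x = c i})
        have hF1 : ∀ c j, Computed p kk s d (F1 c j) := by
          intro c j
          refine Fin.addCases (fun j => ?_) (fun i => ?_) j
          · show Computed p _ s d (F1 c (Fin.castAdd w j))
            simp only [F1, Fin.addCases_left]
            exact hF j
          · show Computed p _ s d (F1 c (Fin.natAdd T0 i))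
            simp only [F1, Fin.addCases_right]
            cases hc : c i
            · have h6 := compl_comp _ _ _ _ _ _ (hf a i)
              refine (congrArg (Computed p _ s d) ?_).mp h6
              ext x
              simp
            · exact hf a i
        have hmem : ∀ (c : Fin w → Bool) (x : V N), (∀ j, x ∈ F1 c j) ↔
            (∀ j, x ∈ F j) ∧ ∀ i, f a i x = c i := by
          intro c x
          constructor
          · intro h
            refine ⟨fun j => ?_, fun i => ?_⟩
            · have := h (Fin.castAdd w j)
              simpa only [F1, Fin.addCases_left] using this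
            · have := h (Fin.natAdd T0 i)
              simp only [F1, Fin.addCases_right] at this
              exact this
          · rintro ⟨h, h'⟩ j
            refine Fin.addCases (fun j => ?_) (fun i => ?_) j
            · simp only [F1, Fin.addCases_left]
              exact h j
            · simp only [F1, Fin.addCases_right]
              exact h' i
        have hcov : {x : V N | (∀ j, x ∈ F j) ∧
            ((Prog.probe a k : Prog A (Fin w → Bool) (Option O)).out
              (fun a i => f a i x)).isSome = true ∧
            ((Prog.probe a k : Prog A (Fin w → Bool) (Option O)).addrs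
              (fun a i => f a i x)).length ≤ t + 1} ⊆
            ⋃ c ∈ (univ : Finset (Fin w → Bool)), {x : V N | (∀ j, x ∈ F1 c j) ∧
              ((k c).out (fun a i => f a i x)).isSome = true ∧
              ((k c).addrs (fun a i => f a i x)).length ≤ t} := by
          intro x hx
          obtain ⟨hx1, hx2, hx3⟩ := hx
          simp only [Set.mem_iUnion]
          refine ⟨fun i => f a i x, Finset.mem_univ _, (hmem _ x).2 ⟨hx1, fun i => rfl⟩, hx2, ?_⟩
          simpa [Prog.addrs] using hx3
        have h7 : Set.ncard {x : V N | (∀ j, x ∈ F j) ∧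
            ((Prog.probe a k : Prog A (Fin w → Bool) (Option O)).out
              (fun a i => f a i x)).isSome = true ∧
            ((Prog.probe a k : Prog A (Fin w → Bool) (Option O)).addrs
              (fun a i => f a i x)).length ≤ t + 1} ≤
            ∑ c : Fin w → Bool, Set.ncard {x : V N | (∀ j, x ∈ F1 c j) ∧
              ((k c).out (fun a i => f a i x)).isSome = true ∧
              ((k c).addrs (fun a i => f a i x)).length ≤ t} := by
          refine (Set.ncard_le_ncard hcov (Set.toFinite _)).trans ?_
          exact Finset.set_ncard_biUnion_le _ _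
        let W : Set (V N) := {x : V N | (∀ j, x ∈ F j) ∧
          ∃ o, (Prog.probe a k : Prog A (Fin w → Bool) (Option O)).out (fun a i => f a i x) =
            some o ∧ ∑ i, x i ≠ β o}
        have h8 : ∑ c : Fin w → Bool, Set.ncard {x : V N | (∀ j, x ∈ F1 c j) ∧
              ∃ o, (k c).out (fun a i => f a i x) = some o ∧ ∑ i, x i ≠ β o} ≤ W.ncard := by
          rw [Set.ncard_eq_toFinset_card' W, Finset.card_eq_sum_card_fiberwise
            (f := fun x : V N => (fun i => f a i x : Fin w → Bool))
            (t := (univ : Finset (Fin w → Bool))) (fun _ _ => Finset.mem_univ _)]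
          refine Finset.sum_le_sum fun c _ => ?_
          rw [Set.ncard_eq_toFinset_card']
          refine Finset.card_le_card fun x hx => ?_
          rw [Set.mem_toFinset] at hx
          obtain ⟨hx1, o, ho, hx2⟩ := hx
          obtain ⟨hx3, hx4⟩ := (hmem c x).1 hx1
          have hx5 : (fun i => f a i x) = c := funext hx4
          rw [Finset.mem_filter, Set.mem_toFinset]
          refine ⟨⟨hx3, o, ?_, hx2⟩, hx5⟩
          show (k (fun i => f a i x)).out _ = some o
          rw [hx5]
          exact ho
        have h9 : ∑ c : Fin w → Bool, (Set.ncard {x : V N | (∀ j, x ∈ F1 c j) ∧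
              ∃ o, (k c).out (fun a i => f a i x) = some o ∧ ∑ i, x i ≠ β o} : ℝ) ≤
            (W.ncard : ℝ) := by exact_mod_cast h8
        calc (Set.ncard {x : V N | (∀ j, x ∈ F j) ∧
            ((Prog.probe a k : Prog A (Fin w → Bool) (Option O)).out
              (fun a i => f a i x)).isSome = true ∧
            ((Prog.probe a k : Prog A (Fin w → Bool) (Option O)).addrs
              (fun a i => f a i x)).length ≤ t + 1} : ℝ) ≤
            ∑ c : Fin w → Bool, (Set.ncard {x : V N | (∀ j, x ∈ F1 c j) ∧
              ((k c).out (fun a i => f a i x)).isSome = true ∧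
              ((k c).addrs (fun a i => f a i x)).length ≤ t} : ℝ) := by exact_mod_cast h7
          _ ≤ ∑ c : Fin w → Bool, (K * (Set.ncard {x : V N | (∀ j, x ∈ F1 c j) ∧
              ∃ o, (k c).out (fun a i => f a i x) = some o ∧ ∑ i, x i ≠ β o} : ℝ) +
                2 ^ (w * t) * b) := by
              refine Finset.sum_le_sum fun c _ => ih c t (T0 + w) (F1 c) (hF1 c) ?_
              have : w * (t + 1) = w * t + w := by ring
              omega
          _ = K * (∑ c : Fin w → Bool, (Set.ncard {x : V N | (∀ j, x ∈ F1 c j) ∧
              ∃ o, (k c).out (fun a i => f a i x) = some o ∧ ∑ i, x i ≠ β o} : ℝ)) +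
                2 ^ (w * (t + 1)) * b := by
              rw [Finset.sum_add_distrib, ← Finset.mul_sum, Finset.sum_const, Finset.card_univ,
                Fintype.card_fun, Fintype.card_bool,
                Fintype.card_fin, nsmul_eq_mul, Nat.cast_pow, Nat.cast_ofNat, mul_add w, mul_one,
                pow_add]
              ring
          _ ≤ K * (W.ncard : ℝ) + 2 ^ (w * (t + 1)) * b :=
              add_le_add_left (mul_le_mul_of_nonneg_left h9 hK) _
  have h1 := key P tt 0 Fin.elim0 (fun j => j.elim0) (by omega)
  have e1 : {x : V N | (∀ j : Fin 0, x ∈ (Fin.elim0 j : Set (V N))) ∧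
      (P.out (fun a i => f a i x)).isSome = true ∧
      (P.addrs (fun a i => f a i x)).length ≤ tt} =
      {x : V N | (P.out (fun a i => f a i x)).isSome = true ∧
      (P.addrs (fun a i => f a i x)).length ≤ tt} := by
    ext x
    simp
  have e2 : {x : V N | (∀ j : Fin 0, x ∈ (Fin.elim0 j : Set (V N))) ∧
      ∃ o, P.out (fun a i => f a i x) = some o ∧ ∑ i, x i ≠ β o} =
      {x : V N | ∃ o, P.out (fun a i => f a i x) = some o ∧ ∑ i, x i ≠ β o} := by
    ext x
    simp
  rw [e1, e2] at h1
  exact h1

end Pool.Agent.K9h48.AP
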