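import Pool.Agent.K9h48.AP.B6

/-!
# Counting with some coordinates overwritten
-/

set_option autoImplicit false

namespace Pool.Agent.K9h48.AP

open Finset
open Pool.Agent.W856.Corner (V)

lemma ovr_count {N N' : ℕ} {e : Fin N' → Fin N} (he : Function.Injective e) (Q : V N → Prop) :
    ∑ x : V N, (Set.ncard {y : V N' | Q (ovr e x y)} : ℝ) =
      (Set.ncard {x : V N | Q x} : ℝ) * 2 ^ N' := by
  classical
  have h1 : (Set.ncard {x : V N | Q x} : ℝ) * 2 ^ N' =
      (Set.ncard {z : V N × V N' | Q z.1} : ℝ) := by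
    have h2 : {z : V N × V N' | Q z.1} = {x : V N | Q x} ×ˢ (Set.univ : Set (V N')) := by
      ext z
      simp
    rw [h2, Set.ncard_prod, Set.ncard_univ, Nat.card_eq_fintype_card, Fintype.card_fun, ZMod.card,
      Fintype.card_fin]
    push_cast
    rfl
  have h3 : Set.ncard {z : V N × V N' | Q z.1} = Set.ncard {z : V N × V N' | Q (ovr e z.1 z.2)} := by
    symm
    have h4 : {z : V N × V N' | Q (ovr e z.1 z.2)} =
        (fun z : V N × V N' => ((ovr e z.1 z.2, fun j => z.1 (e j)) : V N × V N')) ⁻¹'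
          {z : V N × V N' | Q z.1} := by
      ext z
      simp
    rw [h4, Set.ncard_preimage_of_injective_subset_range (ovr_bij he).1]
    rw [(ovr_bij he).2.range_eq]
    exact Set.subset_univ _
  have h5 : Set.ncard {z : V N × V N' | Q (ovr e z.1 z.2)} =
      ∑ x : V N, Set.ncard {y : V N' | Q (ovr e x y)} := by
    rw [Set.ncard_eq_toFinset_card', Finset.card_eq_sum_card_fiberwise
      (f := fun z : V N × V N' => z.1) (t := (univ : Finset (V N))) (fun _ _ => Finset.mem_univ _)]
    refine Finset.sum_congr rfl fun x _ => ?_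
    rw [Set.ncard_eq_toFinset_card']
    symm
    refine Finset.card_bij (fun y _ => (x, y)) ?_ ?_ ?_
    · intro y hy
      simp only [Set.mem_toFinset, Set.mem_ofPred_eq] at hy
      simp only [Finset.mem_filter, Set.mem_toFinset, Set.mem_ofPred_eq]
      exact ⟨hy, trivial⟩
    · intro y _ y' _ h
      exact (Prod.ext_iff.1 h).2
    · rintro ⟨x', y⟩ hz
      simp only [Finset.mem_filter, Set.mem_toFinset, Set.mem_ofPred_eq] at hz
      obtain ⟨hz1, rfl⟩ := hz
      refine ⟨y, ?_, rfl⟩
      simp only [Set.mem_toFinset, Set.mem_ofPred_eq]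
      exact hz1
  rw [h1, h3, h5]
  push_cast
  rfl

theorem c6 {N N' : ℕ} {e : Fin N' → Fin N} (he : Function.Injective e) (Q W : V N → Prop) (K b : ℝ)
    (hb : ∀ x, (Set.ncard {y : V N' | Q (ovr e x y)} : ℝ) ≤
      K * (Set.ncard {y : V N' | W (ovr e x y)} : ℝ) + b) :
    (Set.ncard {x | Q x} : ℝ) * 2 ^ N' ≤ K * (Set.ncard {x | W x} : ℝ) * 2 ^ N' + 2 ^ N * b := by
  classical
  have h1 := Finset.sum_le_sum (s := (univ : Finset (V N))) fun x _ => hb x
  rw [ovr_count he Q, Finset.sum_add_distrib, ← Finset.mul_sum, ovr_count he W, Finset.sum_const,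
    Finset.card_univ, Fintype.card_fun, ZMod.card, Fintype.card_fin, nsmul_eq_mul] at h1
  push_cast at h1
  linarith

end Pool.Agent.K9h48.AP
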