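import Pool.Agent.K9h48.AP.Gen
import Pool.Agent.K9h48.AP.A1
import Pool.Agent.K9h48.AP.A2
import Pool.Agent.K9h48.AP.A3
import Pool.Agent.K9h48.AP.A4
import Pool.Agent.W856.Corner8

set_option autoImplicit false

namespace Pool.Agent.K9h48.AP

open Finset
open Pool.Agent.H699R2.OMV (Prog Vec Mat IsProb before)
open Pool.Agent.W856.Corner (Computed V LK LB amplify)

variable {n : ℕ} {Ω A : Type} {w : ℕ}

/-- the good matrices for one value of the side information -/
lemma good_card {p : ℕ} [Fact p.Prime] (hp2 : p ≠ 2) (P : Prog A (Fin w → Bool) (Option (Vec n)))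
    (v : Vec n) (δ t a : ℕ) (g : A → Fin w → V (n * n) → Bool)
    (hg : ∀ b i, LB (ZMod p) δ (g b i)) (ha : 1 ≤ a)
    (hA : 2 ^ ones v ≤ 4 * (univ.filter fun B : Finset (Fin (ones v)) =>
      ones v / 2 + a ≤ B.card).card) (hΔ : 16 * (w * t * δ) ≤ a * n) :
    Set.ncard {M : Mat n | P.out (fun b i => g b i (entries M)) = some (M.mulVec v) ∧
      (P.addrs (fun b i => g b i (entries M))).length ≤ t} * 2 ^ (n / 8) ≤ 2 ^ (n * n) := by
  classical
  set G : Finset (Mat n) := univ.filter fun M =>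
    P.out (fun b i => g b i (entries M)) = some (M.mulVec v) ∧
      (P.addrs (fun b i => g b i (entries M))).length ≤ t with hG
  have h1 : Set.ncard {M : Mat n | P.out (fun b i => g b i (entries M)) = some (M.mulVec v) ∧
      (P.addrs (fun b i => g b i (entries M))).length ≤ t} = (G.map (entE n).toEmbedding).card := by
    rw [Finset.card_map, Set.ncard_eq_toFinset_card']
    congr 1
    ext M
    simp [hG]
  rw [h1]
  refine le_trans (Nat.mul_le_mul_right _ ?_) (tA3 n (n * n) (ones v) a (w * t * δ) (blk v)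
    (blk_disjoint v) (blk_card v) ha hA hΔ)
  refine tA2 p hp2 n (n * n) (w * t * δ) (blk v) (blk_disjoint v) _ fun B => ?_
  let φ : Option (Vec n) → ZMod p := fun o => o.elim 0 (fun b => ∏ r ∈ B, sg p (b r))
  obtain ⟨R, hR, hRE⟩ := tA1 p (n * n) w δ A (Option (Vec n)) g hg φ P t
  refine ⟨R, hR, fun x hx => ?_⟩
  rw [Finset.mem_map] at hx
  obtain ⟨M, hM, rfl⟩ := hx
  have hM' := (Finset.mem_filter.1 hM).2
  show R (entries M) = _
  rw [hRE (entries M) hM'.2, hM'.1]
  show ∏ r ∈ B, sg p (M.mulVec v r) = _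
  refine Finset.prod_congr rfl fun r _ => ?_
  congr 1
  exact (sum_blk v r M).symm

theorem err_bound [Fintype A] {p k s d e : ℕ} (hp : p.Prime) (hp2 : p ≠ 2) (alg : Alg n Ω A w)
    (hC : alg.CircuitMem p k s d e) (ω : Ω) (h : List (Vec n)) (v : Vec n) (m t a : ℕ) (ha : 1 ≤ a)
    (hA : 2 ^ ones v ≤ 4 * (univ.filter fun B : Finset (Fin (ones v)) =>
      ones v / 2 + a ≤ B.card).card)
    (hΔ : 16 * (w * t * (2 * m * (k * ((p - 1) * (Nat.clog 2 s + 4)) ^ d))) ≤ a * n)
    (γ : ℝ) (h1 : 4 * 2 ^ e * ((Fintype.card A : ℝ) * w) ≤ γ * 4 ^ m)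
    (h2 : 4 * 2 ^ e ≤ γ * 2 ^ (n / 8)) :
    (Set.ncard {M : Mat n | alg.ans ω h M v = some (M.mulVec v) ∧ alg.len ω h M v ≤ t} : ℝ) ≤
      2 ^ (n * n) * (γ / 2) := by
  classical
  have : Fact p.Prime := ⟨hp⟩
  obtain ⟨f, hf⟩ := hC ω h
  choose S hS hSE using hf
  choose F G hF hG hE using fun a i y => amplify (hS a i y) m
  let Good : (Fin e → Bool) → Set (Mat n) := fun y =>
    {M : Mat n | (alg.prog ω h v).out (fun b i => G b i y (entries M)) = some (M.mulVec v) ∧
      ((alg.prog ω h v).addrs (fun b i => G b i y (entries M))).length ≤ t}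
  let Bad : (Fin e → Bool) × A × Fin w → Set (Mat n) := fun z =>
    {M : Mat n | G z.2.1 z.2.2 z.1 (entries M) ≠ F z.2.1 z.2.2 z.1 (entries M)}
  have hcov : {M : Mat n | alg.ans ω h M v = some (M.mulVec v) ∧ alg.len ω h M v ≤ t} ⊆
      (⋃ y ∈ (univ : Finset (Fin e → Bool)), Good y) ∪
        ⋃ z ∈ (univ : Finset ((Fin e → Bool) × A × Fin w)), Bad z := by
    intro M hM
    obtain ⟨hM1, hM2⟩ := hM
    by_cases hb : ∃ z : (Fin e → Bool) × A × Fin w, M ∈ Bad z
    · right
      obtain ⟨z, hz⟩ := hb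
      simp only [Set.mem_iUnion]
      exact ⟨z, Finset.mem_univ _, hz⟩
    · left
      simp only [Set.mem_iUnion]
      refine ⟨f M, Finset.mem_univ _, ?_⟩
      have hmem : (fun b i => G b i (f M) (entries M)) = alg.mem ω h M := by
        funext b i
        have h3 : G b i (f M) (entries M) = F b i (f M) (entries M) := by
          by_contra h4
          exact hb ⟨(f M, b, i), h4⟩
        rw [h3, Bool.eq_iff_iff, ← hF b i (f M) (entries M), ← hSE b i (f M) M rfl]
      show (alg.prog ω h v).out (fun b i => G b i (f M) (entries M)) = some (M.mulVec v) ∧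
        ((alg.prog ω h v).addrs (fun b i => G b i (f M) (entries M))).length ≤ t
      rw [hmem]
      exact ⟨hM1, hM2⟩
  have hgood : ∀ y, ((Good y).ncard : ℝ) ≤ 2 ^ (n * n) / 2 ^ (n / 8) := by
    intro y
    rw [le_div_iff₀ (by positivity)]
    have := good_card hp2 (alg.prog ω h v) v _ t a (fun b i => G b i y) (fun b i => hG b i y) ha hA
      hΔ
    exact_mod_cast this
  have hbad : ∀ z, ((Bad z).ncard : ℝ) ≤ 2 ^ (n * n) / 4 ^ m := by
    intro z
    rw [le_div_iff₀ (by positivity)]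
    have h3 : (Bad z).ncard = (univ.filter fun x : V (n * n) =>
        G z.2.1 z.2.2 z.1 x ≠ F z.2.1 z.2.2 z.1 x).card := by
      rw [Set.ncard_eq_toFinset_card']
      refine Finset.card_bij (fun M _ => entries M) ?_ ?_ ?_
      · intro M hM
        rw [Set.mem_toFinset] at hM
        exact Finset.mem_filter.2 ⟨Finset.mem_univ _, hM⟩
      · intro M _ M' _ hMM
        exact (entE n).injective hMM
      · intro x hx
        refine ⟨(entE n).symm x, ?_, (entE n).apply_symm_apply x⟩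
        rw [Set.mem_toFinset]
        show G z.2.1 z.2.2 z.1 (entries ((entE n).symm x)) ≠
          F z.2.1 z.2.2 z.1 (entries ((entE n).symm x))
        have h4 : entries ((entE n).symm x) = x := (entE n).apply_symm_apply x
        rw [h4]
        exact (Finset.mem_filter.1 hx).2
    rw [h3]
    have := hE z.2.1 z.2.2 z.1
    exact_mod_cast this
  have h3 : Set.ncard {M : Mat n | alg.ans ω h M v = some (M.mulVec v) ∧ alg.len ω h M v ≤ t} ≤
      (∑ y : Fin e → Bool, (Good y).ncard) +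
        ∑ z : (Fin e → Bool) × A × Fin w, (Bad z).ncard := by
    refine (Set.ncard_le_ncard hcov (Set.toFinite _)).trans ?_
    refine (Set.ncard_union_le _ _).trans ?_
    exact Nat.add_le_add (Finset.set_ncard_biUnion_le _ _) (Finset.set_ncard_biUnion_le _ _)
  have h4 : (Set.ncard {M : Mat n | alg.ans ω h M v = some (M.mulVec v) ∧
      alg.len ω h M v ≤ t} : ℝ) ≤ (∑ y : Fin e → Bool, ((Good y).ncard : ℝ)) +
        ∑ z : (Fin e → Bool) × A × Fin w, ((Bad z).ncard : ℝ) := by exact_mod_cast h3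
  have h5 : (∑ y : Fin e → Bool, ((Good y).ncard : ℝ)) ≤
      2 ^ e * (2 ^ (n * n) / 2 ^ (n / 8)) := by
    refine (Finset.sum_le_sum fun y _ => hgood y).trans (le_of_eq ?_)
    rw [Finset.sum_const, Finset.card_univ, Fintype.card_fun, Fintype.card_bool, Fintype.card_fin,
      nsmul_eq_mul]
    push_cast
    rfl
  have h6 : (∑ z : (Fin e → Bool) × A × Fin w, ((Bad z).ncard : ℝ)) ≤
      2 ^ e * ((Fintype.card A : ℝ) * w) * (2 ^ (n * n) / 4 ^ m) := by
    refine (Finset.sum_le_sum fun z _ => hbad z).trans (le_of_eq ?_)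
    rw [Finset.sum_const, Finset.card_univ, Fintype.card_prod, Fintype.card_prod, Fintype.card_fun,
      Fintype.card_bool, Fintype.card_fin, Fintype.card_fin, nsmul_eq_mul]
    push_cast
    rfl
  have h7 : (2 : ℝ) ^ e * (2 ^ (n * n) / 2 ^ (n / 8)) ≤ 2 ^ (n * n) * (γ / 4) := by
    have e1 : (2 : ℝ) ^ e * (2 ^ (n * n) / 2 ^ (n / 8)) =
        2 ^ (n * n) * (2 ^ e / 2 ^ (n / 8)) := by ring
    rw [e1]
    refine mul_le_mul_of_nonneg_left ?_ (by positivity)
    rw [div_le_iff₀ (by positivity)]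
    linarith
  have h8 : 2 ^ e * ((Fintype.card A : ℝ) * w) * (2 ^ (n * n) / 4 ^ m) ≤
      2 ^ (n * n) * (γ / 4) := by
    have e1 : 2 ^ e * ((Fintype.card A : ℝ) * w) * (2 ^ (n * n) / 4 ^ m) =
        2 ^ (n * n) * ((2 ^ e * ((Fintype.card A : ℝ) * w)) / 4 ^ m) := by ring
    rw [e1]
    refine mul_le_mul_of_nonneg_left ?_ (by positivity)
    rw [div_le_iff₀ (by positivity)]
    linarith
  calc _ ≤ _ := h4
    _ ≤ 2 ^ (n * n) * (γ / 4) + 2 ^ (n * n) * (γ / 4) :=
        add_le_add (h5.trans h7) (h6.trans h8)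
    _ = _ := by ring

/-- The bound with errors. -/
theorem main1 [Fintype A] [Fintype Ω] {p k s d e : ℕ} (hp : p.Prime) (hp2 : p ≠ 2) (hk : 1 ≤ k)
    (hw : 1 ≤ w) (alg : Alg n Ω A w) (hC : alg.CircuitMem p k s d e) (μ : Ω → ℝ) (hμ : IsProb μ)
    (vs : Fin n → Vec n) (m : ℕ) (hm : 1 ≤ m) (γ : ℝ) (hγ : 0 ≤ γ)
    (h1 : 4 * 2 ^ e * ((Fintype.card A : ℝ) * w) ≤ γ * 4 ^ m)
    (h2 : 4 * 2 ^ e ≤ γ * 2 ^ (n / 8)) (hR : alg.Right μ vs γ) :
    γ * (n * ∑ q, √(ones (vs q) : ℝ)) ≤
      1024 * m * ((k * ((p - 1) * (Nat.clog 2 s + 4)) ^ d : ℕ) : ℝ) * (w * alg.cost μ vs) := by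
  classical
  obtain ⟨M, hM⟩ : ∃ M, M = k * ((p - 1) * (Nat.clog 2 s + 4)) ^ d := ⟨_, rfl⟩
  have hM1 : 1 ≤ M := by
    rw [hM]
    have h2 := hp.two_le
    have : 1 ≤ (p - 1) * (Nat.clog 2 s + 4) := Nat.mul_pos (by omega) (by omega)
    exact Nat.mul_pos hk (pow_pos this _)
  have h3 := total alg μ hμ vs γ hR (fun q => n * √(ones (vs q) : ℝ)) (γ / 2)
    (1024 * m * (M : ℝ) * w) (fun q => ?_) (by positivity)
  · rw [← hM, Finset.mul_sum]
    refine h3.trans (le_of_eq ?_)
    ring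
  · by_cases h0 : ones (vs q) = 0
    · left
      show (n : ℝ) * √(ones (vs q) : ℝ) = 0
      rw [h0]
      simp
    · right
      obtain ⟨a, ha1, ha2, ha3⟩ := tA4 (ones (vs q)) (Nat.one_le_iff_ne_zero.2 h0)
      have hpos : 0 < 16 * (w * (2 * m * M)) := by positivity
      set t := a * n / (16 * (w * (2 * m * M))) with ht
      have ht1 : t * (16 * (w * (2 * m * M))) ≤ a * n := Nat.div_mul_le_self _ _
      have ht2 : a * n < (t + 1) * (16 * (w * (2 * m * M))) :=
        (Nat.div_lt_iff_lt_mul hpos).1 (Nat.lt_succ_self t)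
      refine ⟨t, ?_, fun ω => ?_⟩
      · have h4 : √(ones (vs q) : ℝ) ≤ 16 * a := by
          rw [Real.sqrt_le_left (by positivity)]
          have : ((ones (vs q) : ℕ) : ℝ) ≤ ((256 * a ^ 2 : ℕ) : ℝ) := by exact_mod_cast ha2
          push_cast at this
          nlinarith
        have h5 : (a : ℝ) * n ≤ (t + 1) * (16 * (w * (2 * m * M))) := by exact_mod_cast ht2.le
        calc γ * ((n : ℝ) * √(ones (vs q) : ℝ)) ≤ γ * (n * (16 * a)) := by
              refine mul_le_mul_of_nonneg_left ?_ hγ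
              exact mul_le_mul_of_nonneg_left h4 (Nat.cast_nonneg _)
          _ = (γ * 16) * (a * n) := by ring
          _ ≤ (γ * 16) * ((t + 1) * (16 * (w * (2 * m * M)))) :=
              mul_le_mul_of_nonneg_left h5 (by positivity)
          _ = 1024 * m * (M : ℝ) * w * ((t + 1) * (γ - γ / 2)) := by ring
      · refine markov alg ω _ _ t (γ / 2) ?_
        refine err_bound hp hp2 alg hC ω _ (vs q) m t a ha1 ha3 ?_ γ h1 h2
        rw [← hM]
        calc 16 * (w * t * (2 * m * M)) = t * (16 * (w * (2 * m * M))) := by ring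
          _ ≤ a * n := ht1

end Pool.Agent.K9h48.AP
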