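import Pool.Agent.K9h48.AP.Gen
import Pool.Agent.K9h48.AP.B2
import Pool.Agent.K9h48.AP.B3
import Pool.Agent.K9h48.AP.C4
import Pool.Agent.K9h48.AP.C5
import Pool.Agent.K9h48.AP.C6

set_option autoImplicit false

namespace Pool.Agent.K9h48.AP

open Finset
open Pool.Agent.H699R2.OMV (Prog Vec Mat IsProb before)
open Pool.Agent.W856.Corner (Computed V LK LB)

variable {n : ℕ} {Ω A : Type} {w : ℕ}

lemma union_card (v : Vec n) : (univ.biUnion (blk v)).card = n * ones v := by
  classical
  rw [Finset.card_biUnion (fun r _ r' _ h => blk_disjoint v r r' h)]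
  simp [blk_card]

lemma ones_le (v : Vec n) : ones v ≤ n := by
  unfold ones
  refine (Finset.card_le_univ _).trans ?_
  rw [Fintype.card_fin]

theorem small_bound {p k s d : ℕ} (hp : p.Prime) (hp2 : p ≠ 2) (alg : Alg n Ω A w)
    (hC : alg.ComputedMem p k s d) (ω : Ω) (h : List (Vec n)) (v : Vec n)
    (t M : ℕ) (hM1 : 1 ≤ M)
    (hM : M = k * ((p - 1) * (Nat.clog 2 (n * n * s + 1) + 4)) ^ (d + 1))
    (ht : w * t ≤ n * n) (r : ℝ) (hr0 : 0 < r) (hr : 80 * (r * M) ≤ 1) :
    (Set.ncard {M : Mat n | (alg.ans ω h M v).isSome = true ∧ alg.len ω h M v ≤ t} : ℝ) ≤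
      ((n * ones v : ℕ) + 1) * Real.exp (24 * r ^ 2 * (n * ones v : ℕ)) *
        (Set.ncard {M : Mat n | ∃ a : Vec n, alg.ans ω h M v = some a ∧ a ≠ M.mulVec v} : ℝ) +
      2 ^ (n * n) * (2 ^ (w * t) * (4 * ((n * ones v : ℕ) + 1) *
        Real.exp (24 * r ^ 2 * (n * ones v : ℕ) - 0.693147 * (r * (n * ones v : ℕ) / M)))) := by
  classical
  choose S hS hSE using hC ω h
  obtain ⟨N', hN'⟩ : ∃ N', N' = n * ones v := ⟨_, rfl⟩
  rw [← hN']
  set U : Finset (Fin (n * n)) := univ.biUnion (blk v) with hU
  have hUc : U.card = N' := by rw [hU, union_card, hN']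
  let e : Fin N' → Fin (n * n) := fun j => U.orderEmbOfFin hUc j
  have he : Function.Injective e := (U.orderEmbOfFin hUc).injective
  have heU : univ.map ⟨e, he⟩ = U := by
    have h1 := Finset.map_orderEmbOfFin_univ U hUc
    exact h1
  let P := alg.prog ω h v
  let Q : V (n * n) → Prop := fun x =>
    (P.out (fun a i => decide (x ∈ S a i))).isSome = true ∧
      (P.addrs (fun a i => decide (x ∈ S a i))).length ≤ t
  let Wr : V (n * n) → Prop := fun x => ∃ o : Vec n,
    P.out (fun a i => decide (x ∈ S a i)) = some o ∧ o ≠ ((entE n).symm x).mulVec v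
  set K : ℝ := (N' + 1) * Real.exp (24 * r ^ 2 * N') with hK
  have hK0 : 0 ≤ K := by positivity
  set b : ℝ := 4 * (N' + 1) * 2 ^ N' *
    Real.exp (24 * r ^ 2 * N' - 0.693147 * (r * N' / M)) with hb
  have hb0 : 0 ≤ b := by positivity
  have hMT : ∀ T : ℕ, T ≤ w * t →
      k * ((p - 1) * (Nat.clog 2 (T * s + 1) + 4)) ^ (d + 1) ≤ M := by
    intro T hT
    rw [hM]
    have h1 : Nat.clog 2 (T * s + 1) ≤ Nat.clog 2 (n * n * s + 1) := by
      refine Nat.clog_mono_right 2 ?_
      exact Nat.add_le_add_right (Nat.mul_le_mul_right _ (hT.trans ht)) 1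
    exact Nat.mul_le_mul_left _ (Nat.pow_le_pow_left (Nat.mul_le_mul_left _
        (Nat.add_le_add_right h1 4)) _)
  have hfib : ∀ x : V (n * n), (Set.ncard {y : V N' | Q (ovr e x y)} : ℝ) ≤
      K * (Set.ncard {y : V N' | Wr (ovr e x y)} : ℝ) + 2 ^ (w * t) * b := by
    intro x
    have h0 := c5 (p := p) (kk := k) (s := s) (d := d) (N := N') (w := w) (A := A) (O := Vec n)
      (fun a i y => decide (ovr e x y ∈ S a i)) (fun a i => ?_)
      (fun o => ∑ r, o r) P t K b hK0 hb0 ?_
    · refine h0.trans ?_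
      have h1 : Set.ncard {y : V N' | ∃ o : Vec n,
          P.out (fun a i => decide (ovr e x y ∈ S a i)) = some o ∧ ∑ i, y i ≠ ∑ r, o r} ≤
          Set.ncard {y : V N' | Wr (ovr e x y)} := by
        refine Set.ncard_le_ncard ?_ (Set.toFinite _)
        rintro y ⟨o, ho1, ho2⟩
        refine ⟨o, ho1, fun h2 => ho2 ?_⟩
        have hX : entries ((entE n).symm (ovr e x y)) = ovr e x y := by
          show (entE n) ((entE n).symm (ovr e x y)) = ovr e x y
          exact Equiv.apply_symm_apply _ _
        rw [h2]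
        calc ∑ j, y j = ∑ j, ovr e x y (e j) := by
              refine Finset.sum_congr rfl fun j _ => ?_
              rw [ovr_apply he]
          _ = ∑ z ∈ U, ovr e x y z := by
              rw [← heU, Finset.sum_map]
              rfl
          _ = ∑ r, ∑ z ∈ blk v r, ovr e x y z := by
              rw [hU, Finset.sum_biUnion (fun r _ r' _ h => blk_disjoint v r r' h)]
          _ = ∑ r, ((entE n).symm (ovr e x y)).mulVec v r := by
              refine Finset.sum_congr rfl fun r _ => ?_
              rw [← sum_blk, hX]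
      have h2 : K * (Set.ncard {y : V N' | ∃ o : Vec n,
          P.out (fun a i => decide (ovr e x y ∈ S a i)) = some o ∧ ∑ i, y i ≠ ∑ r, o r} : ℝ) ≤
          K * (Set.ncard {y : V N' | Wr (ovr e x y)} : ℝ) :=
        mul_le_mul_of_nonneg_left (by exact_mod_cast h1) hK0
      linarith
    · have h1 := tB2 p k s d (n * n) N' hp (fun y => ovr e x y) (fun z => ?_) (S a i) (hS a i)
      · refine (congrArg (Computed p k s d) ?_).mp h1
        ext y
        simp
      · by_cases hz : ∃ j, e j = z
        · right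
          obtain ⟨j, rfl⟩ := hz
          exact ⟨j, fun y => ovr_apply he x y j⟩
        · left
          exact ⟨x z, fun y => ovr_off x y hz⟩
    · intro T F hT hF c
      have h1 := inter_comp p k s d N' T F hF
      exact c4 hp hp2 h1 c M hM1 (hMT T hT) r hr0 hr
  have h6 := c6 he Q Wr K (2 ^ (w * t) * b) hfib
  have h7 : Set.ncard {M : Mat n | (alg.ans ω h M v).isSome = true ∧ alg.len ω h M v ≤ t} ≤
      Set.ncard {x | Q x} := by
    refine Set.ncard_le_ncard_of_injOn (fun X => entries X) ?_ ?_ (Set.toFinite _)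
    · intro X hX
      obtain ⟨h1, h2⟩ := hX
      have hmem : (fun a i => decide (entries X ∈ S a i)) = alg.mem ω h X := by
        funext a i
        rw [Bool.eq_iff_iff, decide_eq_true_iff, hSE a i X]
      show (P.out (fun a i => decide (entries X ∈ S a i))).isSome = true ∧
        (P.addrs (fun a i => decide (entries X ∈ S a i))).length ≤ t
      rw [hmem]
      exact ⟨h1, h2⟩
    · intro X _ Y _ hXY
      exact (entE n).injective hXY
  have h8 : Set.ncard {x | Wr x} ≤
      Set.ncard {M : Mat n | ∃ a : Vec n, alg.ans ω h M v = some a ∧ a ≠ M.mulVec v} := by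
    refine Set.ncard_le_ncard_of_injOn (fun x => (entE n).symm x) ?_ ?_ (Set.toFinite _)
    · rintro x ⟨o, ho1, ho2⟩
      have hX : entries ((entE n).symm x) = x := by
        show (entE n) ((entE n).symm x) = x
        exact Equiv.apply_symm_apply _ _
      have hmem : (fun a i => decide (x ∈ S a i)) = alg.mem ω h ((entE n).symm x) := by
        funext a i
        rw [Bool.eq_iff_iff, decide_eq_true_iff, hSE a i ((entE n).symm x), hX]
      refine ⟨o, ?_, ho2⟩
      show P.out (alg.mem ω h ((entE n).symm x)) = some o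
      rw [← hmem]
      exact ho1
    · intro x _ y _ hxy
      exact (entE n).symm.injective hxy
  have h7' : (Set.ncard {M : Mat n | (alg.ans ω h M v).isSome = true ∧
      alg.len ω h M v ≤ t} : ℝ) ≤ (Set.ncard {x | Q x} : ℝ) := by exact_mod_cast h7
  have h8' : K * (Set.ncard {x | Wr x} : ℝ) ≤
      K * (Set.ncard {M : Mat n | ∃ a : Vec n, alg.ans ω h M v = some a ∧
        a ≠ M.mulVec v} : ℝ) := mul_le_mul_of_nonneg_left (by exact_mod_cast h8) hK0
  have h9 : (Set.ncard {x | Q x} : ℝ) * 2 ^ N' ≤ (K * (Set.ncard {x | Wr x} : ℝ) +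
      2 ^ (n * n) * (2 ^ (w * t) * (4 * (N' + 1) *
        Real.exp (24 * r ^ 2 * N' - 0.693147 * (r * N' / M))))) * 2 ^ N' := by
    refine h6.trans (le_of_eq ?_)
    rw [hb]
    ring
  have h10 := le_of_mul_le_mul_right h9 (by positivity)
  linarith

/-- The bound for small error probability. -/
theorem main3 [Fintype Ω] {p k s d : ℕ} (hp : p.Prime) (hp2 : p ≠ 2) (hk : 1 ≤ k)
    (hw : 1 ≤ w) (alg : Alg n Ω A w) (hC : alg.ComputedMem p k s d)
    (μ : Ω → ℝ) (hμ : IsProb μ) (vs : Fin n → Vec n) (γ δ r : ℝ) (hγ : 0 ≤ γ) (hδ : 0 ≤ δ)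
    (hr0 : 0 < r) (hr : 80 * (r *
      ((k * ((p - 1) * (Nat.clog 2 (n * n * s + 1) + 4)) ^ (d + 1) : ℕ) : ℝ)) ≤ 1)
    (h1 : 16 * ((n : ℝ) ^ 2 + 1) ≤ γ * Real.exp (r * n / (4 *
      ((k * ((p - 1) * (Nat.clog 2 (n * n * s + 1) + 4)) ^ (d + 1) : ℕ) : ℝ))))
    (h2 : 4 * ((n : ℝ) ^ 2 + 1) * Real.exp (24 * (r * n) ^ 2) * δ ≤ γ)
    (hR : alg.Right μ vs γ) (hW : alg.Wrong μ vs δ) :
    γ * (r * (n * ∑ q, (ones (vs q) : ℝ))) ≤
      10 * ((k * ((p - 1) * (Nat.clog 2 (n * n * s + 1) + 4)) ^ (d + 1) : ℕ) : ℝ) *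
        (w * alg.cost μ vs) := by
  classical
  obtain ⟨M, hM⟩ : ∃ M, M = k * ((p - 1) * (Nat.clog 2 (n * n * s + 1) + 4)) ^ (d + 1) := ⟨_, rfl⟩
  rw [← hM] at h1 hr ⊢
  have hM1 : 1 ≤ M := by
    rw [hM]
    have h2 := hp.two_le
    have : 1 ≤ (p - 1) * (Nat.clog 2 (n * n * s + 1) + 4) := Nat.mul_pos (by omega) (by omega)
    exact Nat.mul_pos hk (pow_pos this _)
  have hMR : (1 : ℝ) ≤ M := by exact_mod_cast hM1
  have hMpos : (0 : ℝ) < M := by linarith
  have hwR : (1 : ℝ) ≤ w := by exact_mod_cast hw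
  have hwpos : (0 : ℝ) < w := by linarith
  have hr1 : r ≤ 1 := by nlinarith
  have h3 := total2 alg μ hμ vs γ δ hR hW (fun q => r * (n * (ones (vs q) : ℝ)))
    (10 * (M : ℝ) * w) (fun q => ?_) (by positivity)
  · rw [Finset.mul_sum, Finset.mul_sum]
    refine h3.trans (le_of_eq ?_)
    ring
  · by_cases h0 : ones (vs q) = 0
    · left
      show r * ((n : ℝ) * (ones (vs q) : ℝ)) = 0
      rw [h0]
      simp
    · right
      have hτ1 : 1 ≤ ones (vs q) := Nat.one_le_iff_ne_zero.2 h0
      have hτn := ones_le (vs q)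
      obtain ⟨N', hN'⟩ : ∃ N', N' = n * ones (vs q) := ⟨_, rfl⟩
      have hN'1 : n ≤ N' := by rw [hN']; exact Nat.le_mul_of_pos_right n hτ1
      have hN'2 : N' ≤ n * n := by rw [hN']; exact Nat.mul_le_mul_left n hτn
      have hN'R0 : (0 : ℝ) ≤ N' := Nat.cast_nonneg _
      have hN'R1 : (n : ℝ) ≤ N' := by exact_mod_cast hN'1
      have hN'R2 : (N' : ℝ) ≤ (n : ℝ) ^ 2 := by
        have : ((N' : ℕ) : ℝ) ≤ ((n * n : ℕ) : ℝ) := by exact_mod_cast hN'2
        push_cast at this
        nlinarith
      set t := ⌊r * N' / (5 * (w * M))⌋₊ with ht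
      have ht1 : (t : ℝ) ≤ r * N' / (5 * (w * M)) := Nat.floor_le (by positivity)
      have ht2 : r * N' / (5 * (w * M)) < t + 1 := Nat.lt_floor_add_one _
      have ht3 : (w : ℝ) * t ≤ r * N' / M * (1 / 5) := by
        rw [le_div_iff₀ (by positivity)] at ht1
        rw [div_mul_eq_mul_div, le_div_iff₀ hMpos]
        linarith
      have hwt : w * t ≤ n * n := by
        have h5 : (w : ℝ) * t ≤ N' := by
          refine ht3.trans ?_
          rw [div_mul_eq_mul_div, div_le_iff₀ hMpos]
          nlinarith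
        have h6 : w * t ≤ N' := by exact_mod_cast h5
        exact h6.trans hN'2
      refine ⟨t, (N' + 1) * Real.exp (24 * r ^ 2 * N'), 2 ^ (w * t) * (4 * ((N' : ℝ) + 1) *
        Real.exp (24 * r ^ 2 * N' - 0.693147 * (r * N' / M))), by positivity, ?_, ?_, fun ω => ?_⟩
      · -- the two small terms
        have hA : (N' + 1) * Real.exp (24 * r ^ 2 * N') * δ ≤ γ / 4 := by
          have h5 : ((N' : ℝ) + 1) * Real.exp (24 * r ^ 2 * N') ≤
              ((n : ℝ) ^ 2 + 1) * Real.exp (24 * (r * n) ^ 2) := by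
            refine mul_le_mul (by linarith) ?_ (Real.exp_pos _).le (by positivity)
            rw [Real.exp_le_exp]
            have : 24 * r ^ 2 * N' ≤ 24 * r ^ 2 * (n : ℝ) ^ 2 :=
              mul_le_mul_of_nonneg_left hN'R2 (by positivity)
            nlinarith
          have h6 := mul_le_mul_of_nonneg_right h5 hδ
          linarith
        have hB : 2 ^ (w * t) * (4 * ((N' : ℝ) + 1) *
            Real.exp (24 * r ^ 2 * N' - 0.693147 * (r * N' / M))) ≤ γ / 4 := by
          have h5 : (2 : ℝ) ^ (w * t) ≤ Real.exp (0.6931471808 * (r * N' / M * (1 / 5))) := by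
            have h6 : (2 : ℝ) ^ (w * t) = Real.exp (Real.log 2 * ((w * t : ℕ) : ℝ)) := by
              rw [← Real.rpow_natCast, Real.rpow_def_of_pos (by norm_num)]
            rw [h6, Real.exp_le_exp]
            have h8 : Real.log 2 ≤ 0.6931471808 := Real.log_two_lt_d9.le
            push_cast
            exact mul_le_mul h8 ht3 (by positivity) (by norm_num)
          have h6 : (2 : ℝ) ^ (w * t) *
              Real.exp (24 * r ^ 2 * N' - 0.693147 * (r * N' / M)) ≤
              Real.exp (-(r * n / (4 * M))) := by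
            calc (2 : ℝ) ^ (w * t) * Real.exp (24 * r ^ 2 * N' - 0.693147 * (r * N' / M)) ≤
                Real.exp (0.6931471808 * (r * N' / M * (1 / 5))) *
                  Real.exp (24 * r ^ 2 * N' - 0.693147 * (r * N' / M)) :=
                  mul_le_mul_of_nonneg_right h5 (Real.exp_pos _).le
              _ = Real.exp (0.6931471808 * (r * N' / M * (1 / 5)) +
                  (24 * r ^ 2 * N' - 0.693147 * (r * N' / M))) := by rw [← Real.exp_add]
              _ ≤ Real.exp (-(r * n / (4 * M))) := by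
                  rw [Real.exp_le_exp]
                  have h7 : 24 * r ^ 2 * N' ≤ (3 / 10) * (r * N' / M) := by
                    rw [← mul_div_assoc, le_div_iff₀ hMpos]
                    have h8 : r * N' * (80 * (r * M)) ≤ r * N' * 1 :=
                      mul_le_mul_of_nonneg_left hr (by positivity)
                    nlinarith
                  have h8 : r * n / (4 * M) ≤ (1 / 4) * (r * N' / M) := by
                    have h9 : r * n / (4 * M) = (1 / 4) * (r * n / M) := by
                      field_simp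
                    rw [h9]
                    refine mul_le_mul_of_nonneg_left ?_ (by norm_num)
                    exact div_le_div_of_nonneg_right
                      (mul_le_mul_of_nonneg_left hN'R1 hr0.le) hMpos.le
                  have h9 : 0 ≤ r * N' / M := by positivity
                  linarith
          have h7 : (4 : ℝ) * (N' + 1) ≤ γ / 4 * Real.exp (r * n / (4 * M)) := by linarith
          calc 2 ^ (w * t) * (4 * ((N' : ℝ) + 1) *
                Real.exp (24 * r ^ 2 * N' - 0.693147 * (r * N' / M))) =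
              (4 * ((N' : ℝ) + 1)) * (2 ^ (w * t) *
                Real.exp (24 * r ^ 2 * N' - 0.693147 * (r * N' / M))) := by ring
            _ ≤ (γ / 4 * Real.exp (r * n / (4 * M))) * Real.exp (-(r * n / (4 * M))) :=
                  mul_le_mul h7 h6 (by positivity) (by positivity)
            _ = γ / 4 := by
                rw [mul_assoc, ← Real.exp_add, add_neg_cancel, Real.exp_zero, mul_one]
        linarith
      · have h5 : r * N' ≤ (t + 1) * (5 * (w * M)) := by
          rw [div_lt_iff₀ (by positivity)] at ht2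
          exact ht2.le
        have h6 : (N' : ℝ) = n * (ones (vs q) : ℝ) := by rw [hN']; push_cast; ring
        rw [h6] at h5
        calc γ * (r * ((n : ℝ) * (ones (vs q) : ℝ))) ≤ γ * ((t + 1) * (5 * (w * M))) :=
              mul_le_mul_of_nonneg_left h5 hγ
          _ = 10 * (M : ℝ) * w * ((t + 1) * (γ / 2)) := by ring
      · refine markov alg ω _ _ t _ ?_
        have h5 := small_bound hp hp2 alg hC ω (before vs q) (vs q) t M hM1 hM hwt r hr0 hr
        rw [← hN', wP_eq] at h5
        have h6 : Set.ncard {M : Mat n | alg.ans ω (before vs q) M (vs q) =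
            some (M.mulVec (vs q)) ∧ alg.len ω (before vs q) M (vs q) ≤ t} ≤
            Set.ncard {M : Mat n | (alg.ans ω (before vs q) M (vs q)).isSome = true ∧
              alg.len ω (before vs q) M (vs q) ≤ t} := by
          refine Set.ncard_le_ncard ?_ (Set.toFinite _)
          rintro X ⟨hX1, hX2⟩
          refine ⟨?_, hX2⟩
          rw [hX1]
          rfl
        have h6' : (Set.ncard {M : Mat n | alg.ans ω (before vs q) M (vs q) =
            some (M.mulVec (vs q)) ∧ alg.len ω (before vs q) M (vs q) ≤ t} : ℝ) ≤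
            (Set.ncard {M : Mat n | (alg.ans ω (before vs q) M (vs q)).isSome = true ∧
              alg.len ω (before vs q) M (vs q) ≤ t} : ℝ) := by exact_mod_cast h6
        refine h6'.trans (h5.trans (le_of_eq ?_))
        ring

end Pool.Agent.K9h48.AP
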