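import Pool.Agent.K9h48.AP.Stm

/-!
# General facts: the entries, products as parities, Markov's inequality
-/

set_option autoImplicit false

namespace Pool.Agent.K9h48.AP

open Finset
open Pool.Agent.H699R2.OMV (Prog Vec Mat IsProb before)
open Pool.Agent.W856.Corner (Computed V)

variable {n : ℕ} {Ω A : Type} {w : ℕ}

/-- the entries as a bijection -/
def entE (n : ℕ) : Mat n ≃ V (n * n) where
  toFun := entries
  invFun x := fun r c => x (finProdFinEquiv (r, c))
  left_inv M := by
    funext r c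
    show M (finProdFinEquiv.symm (finProdFinEquiv (r, c))).1
      (finProdFinEquiv.symm (finProdFinEquiv (r, c))).2 = M r c
    rw [Equiv.symm_apply_apply]
  right_inv x := by
    funext z
    show x (finProdFinEquiv ((finProdFinEquiv.symm z).1, (finProdFinEquiv.symm z).2)) = x z
    rw [Prod.mk.eta, Equiv.apply_symm_apply]

lemma entE_apply (M : Mat n) : entE n M = entries M := rfl

/-- the entries in row `r` which are multiplied by one -/
def blk (v : Vec n) (r : Fin n) : Finset (Fin (n * n)) :=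
  (univ.filter (fun c => v c = 1)).map ⟨fun c => finProdFinEquiv (r, c), fun c c' h => by
    have := finProdFinEquiv.injective h
    exact (Prod.ext_iff.1 this).2⟩

lemma blk_card (v : Vec n) (r : Fin n) : (blk v r).card = ones v := by
  unfold blk ones
  rw [Finset.card_map]

lemma mem_blk (v : Vec n) (r : Fin n) (z : Fin (n * n)) :
    z ∈ blk v r ↔ (finProdFinEquiv.symm z).1 = r ∧ v (finProdFinEquiv.symm z).2 = 1 := by
  unfold blk
  simp only [Finset.mem_map, Finset.mem_filter, Finset.mem_univ, true_and,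
    Function.Embedding.coeFn_mk]
  constructor
  · rintro ⟨c, hc, rfl⟩
    rw [Equiv.symm_apply_apply]
    exact ⟨rfl, hc⟩
  · rintro ⟨h1, h2⟩
    refine ⟨(finProdFinEquiv.symm z).2, h2, ?_⟩
    rw [← h1, Prod.mk.eta, Equiv.apply_symm_apply]

lemma blk_disjoint (v : Vec n) (r r' : Fin n) (h : r ≠ r') : Disjoint (blk v r) (blk v r') := by
  rw [Finset.disjoint_left]
  intro z hz hz'
  rw [mem_blk] at hz hz'
  exact h (hz.1.symm.trans hz'.1)

lemma sum_blk (v : Vec n) (r : Fin n) (M : Mat n) : ∑ i ∈ blk v r, entries M i = M.mulVec v r := by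
  unfold blk
  rw [Finset.sum_map]
  simp only [Function.Embedding.coeFn_mk, Matrix.mulVec, dotProduct]
  rw [Finset.sum_filter]
  refine Finset.sum_congr rfl fun c _ => ?_
  have h01 : ∀ a : ZMod 2, a = 0 ∨ a = 1 := by decide
  rcases h01 (v c) with h | h
  · rw [h, if_neg (by decide), mul_zero]
  · rw [h, if_pos rfl, mul_one]
    simp [entries]

lemma card_mat (n : ℕ) : (Fintype.card (Mat n) : ℝ) = 2 ^ (n * n) := by
  rw [Fintype.card_congr (entE n), Fintype.card_fun, ZMod.card, Fintype.card_fin]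
  push_cast
  rfl

lemma card_mat_pos (n : ℕ) : (0 : ℝ) < (Fintype.card (Mat n) : ℝ) := by
  rw [card_mat]
  positivity

lemma mean_mono {F G : Mat n → ℝ} (h : ∀ M, F M ≤ G M) : mean F ≤ mean G := by
  unfold mean
  exact div_le_div_of_nonneg_right (Finset.sum_le_sum fun M _ => h M) (card_mat_pos n).le

lemma mean_nonneg {F : Mat n → ℝ} (h : ∀ M, 0 ≤ F M) : 0 ≤ mean F := by
  unfold mean
  exact div_nonneg (Finset.sum_nonneg fun M _ => h M) (card_mat_pos n).le

lemma mean_sum {ι : Type} (s : Finset ι) (F : ι → Mat n → ℝ) :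
    mean (fun M => ∑ i ∈ s, F i M) = ∑ i ∈ s, mean (F i) := by
  unfold mean
  rw [Finset.sum_comm, Finset.sum_div]

lemma mean_mul (c : ℝ) (F : Mat n → ℝ) : mean (fun M => c * F M) = c * mean F := by
  unfold mean
  rw [← Finset.mul_sum, mul_div_assoc]

open Classical in
/-- the probability over a random matrix that the answer is right -/
noncomputable def rP (alg : Alg n Ω A w) (ω : Ω) (h : List (Vec n)) (v : Vec n) : ℝ :=
  mean (fun M => if alg.ans ω h M v = some (M.mulVec v) then (1 : ℝ) else 0)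

/-- the expected number of probes -/
noncomputable def lP (alg : Alg n Ω A w) (ω : Ω) (h : List (Vec n)) (v : Vec n) : ℝ :=
  mean (fun M => (alg.len ω h M v : ℝ))

lemma lP_nonneg (alg : Alg n Ω A w) (ω : Ω) (h : List (Vec n)) (v : Vec n) : 0 ≤ lP alg ω h v :=
  mean_nonneg fun _ => Nat.cast_nonneg _

lemma markov (alg : Alg n Ω A w) (ω : Ω) (h : List (Vec n)) (v : Vec n) (t : ℕ) (β : ℝ)
    (hβ : (Set.ncard {M : Mat n | alg.ans ω h M v = some (M.mulVec v) ∧ alg.len ω h M v ≤ t} : ℝ) ≤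
      2 ^ (n * n) * β) :
    (t + 1 : ℝ) * (rP alg ω h v - β) ≤ lP alg ω h v := by
  classical
  have h1 : ∀ M : Mat n, (t + 1 : ℝ) * (if alg.ans ω h M v = some (M.mulVec v) then (1 : ℝ) else 0) ≤
      (alg.len ω h M v : ℝ) + (t + 1 : ℝ) *
        (if alg.ans ω h M v = some (M.mulVec v) ∧ alg.len ω h M v ≤ t then (1 : ℝ) else 0) := by
    intro M
    have h0 : (0 : ℝ) ≤ (alg.len ω h M v : ℝ) := Nat.cast_nonneg _
    by_cases h2 : alg.ans ω h M v = some (M.mulVec v)
    · by_cases h3 : alg.len ω h M v ≤ t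
      · rw [if_pos h2, if_pos ⟨h2, h3⟩]
        linarith
      · rw [if_pos h2, if_neg (fun h4 => h3 h4.2)]
        have : (t + 1 : ℝ) ≤ (alg.len ω h M v : ℝ) := by
          have : t + 1 ≤ alg.len ω h M v := by omega
          exact_mod_cast this
        linarith
    · rw [if_neg h2, if_neg (fun h4 => h2 h4.1)]
      linarith
  have h2 := mean_mono h1
  have h3 : mean (fun M : Mat n => (alg.len ω h M v : ℝ) + (t + 1 : ℝ) *
        (if alg.ans ω h M v = some (M.mulVec v) ∧ alg.len ω h M v ≤ t then (1 : ℝ) else 0)) =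
      lP alg ω h v + (t + 1) * (Set.ncard {M : Mat n | alg.ans ω h M v = some (M.mulVec v) ∧
        alg.len ω h M v ≤ t} / 2 ^ (n * n)) := by
    unfold lP mean
    have h9 : Set.ncard {M : Mat n | alg.ans ω h M v = some (M.mulVec v) ∧ alg.len ω h M v ≤ t} =
        (univ.filter fun M : Mat n => alg.ans ω h M v = some (M.mulVec v) ∧
          alg.len ω h M v ≤ t).card := by
      rw [Set.ncard_eq_toFinset_card']
      congr 1
      ext M
      simp
    rw [Finset.sum_add_distrib, ← Finset.mul_sum, Finset.sum_boole, card_mat, add_div, mul_div_assoc,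
      h9]
  rw [h3, mean_mul] at h2
  have h4 : (Set.ncard {M : Mat n | alg.ans ω h M v = some (M.mulVec v) ∧
        alg.len ω h M v ≤ t} / 2 ^ (n * n) : ℝ) ≤ β := by
    rw [div_le_iff₀ (by positivity)]
    linarith
  have h5 : (0 : ℝ) ≤ t + 1 := by positivity
  have h6 := mul_le_mul_of_nonneg_left h4 h5
  unfold rP
  linarith

open Classical in
/-- summation over the coins and the vectors -/
lemma total [Fintype Ω] (alg : Alg n Ω A w) (μ : Ω → ℝ) (hμ : IsProb μ) (vs : Fin n → Vec n)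
    (γ : ℝ) (hR : alg.Right μ vs γ) (c : Fin n → ℝ) (β : ℝ) (K : ℝ)
    (h : ∀ (q : Fin n), c q = 0 ∨ ∃ t : ℕ, γ * c q ≤ K * ((t + 1) * (γ - β)) ∧
      ∀ ω, (t + 1 : ℝ) * (rP alg ω (before vs q) (vs q) - β) ≤ lP alg ω (before vs q) (vs q))
    (hK : 0 ≤ K) :
    γ * ∑ q, c q ≤ K * alg.cost μ vs := by
  have h1 : alg.cost μ vs = ∑ q, ∑ ω, μ ω * lP alg ω (before vs q) (vs q) := by
    unfold Alg.cost lP
    rw [mean_sum]
    rw [Finset.sum_comm]
    refine Finset.sum_congr rfl fun ω _ => ?_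
    rw [mean_mul, mean_sum, Finset.mul_sum]
  rw [h1, Finset.mul_sum, Finset.mul_sum]
  refine Finset.sum_le_sum fun q _ => ?_
  have h0 : 0 ≤ ∑ ω, μ ω * lP alg ω (before vs q) (vs q) :=
    Finset.sum_nonneg fun ω _ => mul_nonneg (hμ.nonneg ω) (lP_nonneg _ _ _ _)
  rcases h q with h2 | ⟨t, h2, h3⟩
  · rw [h2, mul_zero]
    exact mul_nonneg hK h0
  · refine h2.trans (mul_le_mul_of_nonneg_left ?_ hK)
    have h4 : γ ≤ ∑ ω, μ ω * rP alg ω (before vs q) (vs q) := by
      refine (hR q).trans (le_of_eq ?_)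
      rw [mean_sum]
      refine Finset.sum_congr rfl fun ω _ => ?_
      rw [mean_mul]
      rfl
    have h5 : ∑ ω, μ ω * ((t + 1 : ℝ) * (rP alg ω (before vs q) (vs q) - β)) ≤
        ∑ ω, μ ω * lP alg ω (before vs q) (vs q) :=
      Finset.sum_le_sum fun ω _ => mul_le_mul_of_nonneg_left (h3 ω) (hμ.nonneg ω)
    refine le_trans ?_ h5
    have h6 : ∑ ω, μ ω * ((t + 1 : ℝ) * (rP alg ω (before vs q) (vs q) - β)) =
        (t + 1) * (∑ ω, μ ω * rP alg ω (before vs q) (vs q) - β) := by
      have h7 : ∀ ω, μ ω * ((t + 1 : ℝ) * (rP alg ω (before vs q) (vs q) - β)) =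
          (t + 1) * (μ ω * rP alg ω (before vs q) (vs q)) - (t + 1) * β * μ ω := by
        intro ω
        ring
      simp only [h7]
      rw [Finset.sum_sub_distrib, ← Finset.mul_sum, ← Finset.mul_sum, hμ.sum_one]
      ring
    rw [h6]
    have h8 : (0 : ℝ) ≤ t + 1 := by positivity
    exact mul_le_mul_of_nonneg_left (by linarith) h8

open Classical in
/-- the probability over a random matrix that there is an answer and it is wrong -/
noncomputable def wP (alg : Alg n Ω A w) (ω : Ω) (h : List (Vec n)) (v : Vec n) : ℝ :=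
  mean (fun M => if ∃ a : Vec n, alg.ans ω h M v = some a ∧ a ≠ M.mulVec v then (1 : ℝ) else 0)

lemma wP_eq (alg : Alg n Ω A w) (ω : Ω) (h : List (Vec n)) (v : Vec n) :
    (Set.ncard {M : Mat n | ∃ a : Vec n, alg.ans ω h M v = some a ∧ a ≠ M.mulVec v} : ℝ) =
      2 ^ (n * n) * wP alg ω h v := by
  classical
  have h9 : Set.ncard {M : Mat n | ∃ a : Vec n, alg.ans ω h M v = some a ∧ a ≠ M.mulVec v} =
      (univ.filter fun M : Mat n => ∃ a : Vec n, alg.ans ω h M v = some a ∧
        a ≠ M.mulVec v).card := by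
    rw [Set.ncard_eq_toFinset_card']
    congr 1
    ext M
    simp
  unfold wP mean
  rw [Finset.sum_boole, card_mat, h9]
  field_simp

/-- summation over the coins and the vectors, with wrong answers -/
lemma total2 [Fintype Ω] (alg : Alg n Ω A w) (μ : Ω → ℝ) (hμ : IsProb μ) (vs : Fin n → Vec n)
    (γ δ : ℝ) (hR : alg.Right μ vs γ) (hW : alg.Wrong μ vs δ) (c : Fin n → ℝ) (K : ℝ)
    (h : ∀ (q : Fin n), c q = 0 ∨ ∃ (t : ℕ) (L β : ℝ), 0 ≤ L ∧ L * δ + β ≤ γ / 2 ∧
      γ * c q ≤ K * ((t + 1) * (γ / 2)) ∧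
      ∀ ω, (t + 1 : ℝ) * (rP alg ω (before vs q) (vs q) -
        (L * wP alg ω (before vs q) (vs q) + β)) ≤ lP alg ω (before vs q) (vs q))
    (hK : 0 ≤ K) :
    γ * ∑ q, c q ≤ K * alg.cost μ vs := by
  classical
  have h1 : alg.cost μ vs = ∑ q, ∑ ω, μ ω * lP alg ω (before vs q) (vs q) := by
    unfold Alg.cost lP
    rw [mean_sum]
    rw [Finset.sum_comm]
    refine Finset.sum_congr rfl fun ω _ => ?_
    rw [mean_mul, mean_sum, Finset.mul_sum]
  rw [h1, Finset.mul_sum, Finset.mul_sum]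
  refine Finset.sum_le_sum fun q _ => ?_
  have h0 : 0 ≤ ∑ ω, μ ω * lP alg ω (before vs q) (vs q) :=
    Finset.sum_nonneg fun ω _ => mul_nonneg (hμ.nonneg ω) (lP_nonneg _ _ _ _)
  rcases h q with h2 | ⟨t, L, β, hL, hβ, h2, h3⟩
  · rw [h2, mul_zero]
    exact mul_nonneg hK h0
  · refine h2.trans (mul_le_mul_of_nonneg_left ?_ hK)
    have h4 : γ ≤ ∑ ω, μ ω * rP alg ω (before vs q) (vs q) := by
      refine (hR q).trans (le_of_eq ?_)
      rw [mean_sum]
      refine Finset.sum_congr rfl fun ω _ => ?_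
      rw [mean_mul]
      rfl
    have h4' : ∑ ω, μ ω * wP alg ω (before vs q) (vs q) ≤ δ := by
      refine le_trans (le_of_eq ?_) (hW q)
      rw [mean_sum]
      refine Finset.sum_congr rfl fun ω _ => ?_
      rw [mean_mul]
      rfl
    have h5 : ∑ ω, μ ω * ((t + 1 : ℝ) * (rP alg ω (before vs q) (vs q) -
        (L * wP alg ω (before vs q) (vs q) + β))) ≤
        ∑ ω, μ ω * lP alg ω (before vs q) (vs q) :=
      Finset.sum_le_sum fun ω _ => mul_le_mul_of_nonneg_left (h3 ω) (hμ.nonneg ω)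
    refine le_trans ?_ h5
    have h6 : ∑ ω, μ ω * ((t + 1 : ℝ) * (rP alg ω (before vs q) (vs q) -
        (L * wP alg ω (before vs q) (vs q) + β))) =
        (t + 1) * (∑ ω, μ ω * rP alg ω (before vs q) (vs q) -
          (L * (∑ ω, μ ω * wP alg ω (before vs q) (vs q)) + β)) := by
      have h7 : ∀ ω, μ ω * ((t + 1 : ℝ) * (rP alg ω (before vs q) (vs q) -
          (L * wP alg ω (before vs q) (vs q) + β))) =
          (t + 1) * (μ ω * rP alg ω (before vs q) (vs q)) -
            (t + 1) * L * (μ ω * wP alg ω (before vs q) (vs q)) - (t + 1) * β * μ ω := by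
        intro ω
        ring
      simp only [h7]
      rw [Finset.sum_sub_distrib, Finset.sum_sub_distrib, ← Finset.mul_sum, ← Finset.mul_sum,
        ← Finset.mul_sum, hμ.sum_one]
      ring
    rw [h6]
    have h8 : (0 : ℝ) ≤ t + 1 := by positivity
    have h9 := mul_le_mul_of_nonneg_left h4' hL
    exact mul_le_mul_of_nonneg_left (by linarith) h8

end Pool.Agent.K9h48.AP
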