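import Pool.Agent.H699R2.OMV.Model
import Pool.Agent.W856.CornerDefs

/-!
# Online matrix-vector multiplication over `ZMod 2` with memory computed by circuits with gates modulo
an odd prime number
-/

set_option autoImplicit false

namespace Pool.Agent.K9h48.AP

open Pool.Agent.H699R2.OMV (Prog Vec Mat IsProb before)
open Pool.Agent.W856.Corner (Computed V)

/-- The `n * n` entries of the matrix, listed row by row. -/
def entries {n : ℕ} (M : Mat n) : V (n * n) := fun z =>
  M (finProdFinEquiv.symm z).1 (finProdFinEquiv.symm z).2

/-- A randomised algorithm for online matrix-vector multiplication over `ZMod 2` in the cell-probe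
model with cells of `w` bits. `Ω` is the set of outcomes of its coins, `A` the set of addresses.
`mem ω h M` is the content of the memory when the vectors in the list `h` have been processed, and
`prog ω h v` is the program run on the next vector `v`; the answer `none` means that the algorithm
does not answer. -/
structure Alg (n : ℕ) (Ω A : Type) (w : ℕ) where
  mem : Ω → List (Vec n) → Mat n → A → Fin w → Bool
  prog : Ω → List (Vec n) → Vec n → Prog A (Fin w → Bool) (Option (Vec n))

/-- The average over all matrices. -/
noncomputable def mean {n : ℕ} (F : Mat n → ℝ) : ℝ := (∑ M, F M) / (Fintype.card (Mat n) : ℝ)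

/-- The number of ones of a vector. -/
def ones {n : ℕ} (v : Vec n) : ℕ := (Finset.univ.filter (fun c => v c = 1)).card

namespace Alg

variable {n : ℕ} {Ω A : Type} {w : ℕ}

/-- The answer to the vector `v` after the vectors in `h`. -/
def ans (alg : Alg n Ω A w) (ω : Ω) (h : List (Vec n)) (M : Mat n) (v : Vec n) : Option (Vec n) :=
  (alg.prog ω h v).out (alg.mem ω h M)

/-- The number of cells probed for the vector `v` after the vectors in `h`. -/
def len (alg : Alg n Ω A w) (ω : Ω) (h : List (Vec n)) (M : Mat n) (v : Vec n) : ℕ :=
  ((alg.prog ω h v).addrs (alg.mem ω h M)).length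

/-- The expected total number of probes for the stream `vs` and a uniformly random matrix. -/
noncomputable def cost [Fintype Ω] (alg : Alg n Ω A w) (μ : Ω → ℝ) (vs : Fin n → Vec n) : ℝ :=
  mean (fun M => ∑ ω, μ ω * ∑ q, (alg.len ω (before vs q) M (vs q) : ℝ))

open Classical in
/-- For the stream `vs` and a uniformly random matrix, each single product is computed with
probability at least `γ`. -/
def Right [Fintype Ω] (alg : Alg n Ω A w) (μ : Ω → ℝ) (vs : Fin n → Vec n) (γ : ℝ) : Prop :=
  ∀ q : Fin n, γ ≤ mean (fun M => ∑ ω, μ ω *
    (if alg.ans ω (before vs q) M (vs q) = some (M.mulVec (vs q)) then (1 : ℝ) else 0))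

/-- No answer is ever wrong (but answers may be missing). -/
def NeverWrong (alg : Alg n Ω A w) : Prop :=
  ∀ (ω : Ω) (h : List (Vec n)) (M : Mat n) (v a : Vec n), alg.ans ω h M v = some a →
    a = M.mulVec v

/-- For given coins and earlier vectors there are `e` arbitrary bits `f M` of side information about
the matrix such that, for each value `y` of the side information, every bit of every cell is
computed, on all matrices with this side information, by a circuit on the entries of the matrix
with at most `s` AND and OR gates and any number of negations and gates modulo the prime number `p`,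
of depth at most `d` (the fan-in is unbounded), whose inputs are Boolean functions of degree at most
`k` over `ZMod p` in the entries. -/
def CircuitMem (alg : Alg n Ω A w) (p k s d e : ℕ) : Prop :=
  ∀ (ω : Ω) (h : List (Vec n)), ∃ f : Mat n → Fin e → Bool,
    ∀ (a : A) (i : Fin w) (y : Fin e → Bool), ∃ S : Set (V (n * n)), Computed p k s d S ∧
      ∀ M : Mat n, f M = y → (alg.mem ω h M a i = true ↔ entries M ∈ S)

open Classical in
/-- For the stream `vs` and a uniformly random matrix, each single answer is given and wrong with
probability at most `δ`. -/
def Wrong [Fintype Ω] (alg : Alg n Ω A w) (μ : Ω → ℝ) (vs : Fin n → Vec n) (δ : ℝ) : Prop :=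
  ∀ q : Fin n, mean (fun M => ∑ ω, μ ω *
    (if ∃ a : Vec n, alg.ans ω (before vs q) M (vs q) = some a ∧ a ≠ M.mulVec (vs q)
      then (1 : ℝ) else 0)) ≤ δ

/-- Given the coins and the earlier vectors, every bit of every cell is computed by a circuit on the
entries of the matrix with at most `s` AND and OR gates and any number of negations and gates modulo
the prime number `p`, of depth at most `d` (the fan-in is unbounded), whose inputs are Boolean
functions of degree at most `k` over `ZMod p` in the entries. -/
def ComputedMem (alg : Alg n Ω A w) (p k s d : ℕ) : Prop :=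
  ∀ (ω : Ω) (h : List (Vec n)) (a : A) (i : Fin w), ∃ S : Set (V (n * n)),
    Computed p k s d S ∧ ∀ M : Mat n, (alg.mem ω h M a i = true ↔ entries M ∈ S)

end Alg

end Pool.Agent.K9h48.AP
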