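import Pool.Agent.K9h48.AP.Model
import Pool.Agent.W856.Corner10

/-!
# Statements of the leaves (helper48, OMV with AC0[p] memory)

`LK K N D` (Corner6): functions on the cube `V N = Fin N → ZMod 2` of degree at most `D` over `K`;
`LB K D f` (Corner7): the Boolean function `f`, as a function with values `0`, `1`, is in `LK K N D`;
`Computed p k s d S` (CornerDefs): circuits.
-/

set_option autoImplicit false

namespace Pool.Agent.K9h48.AP

open Finset
open Pool.Agent.H699R2.OMV (Prog Vec Mat IsProb before)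
open Pool.Agent.W856.Corner (Computed V LK LB)

/-- `-1` for odd, `1` for even -/
def sg (p : ℕ) (a : ZMod 2) : ZMod p := if a = 1 then -1 else 1

/-- excess of the set `B` over half of the blocks (natural subtraction) -/
def excess {n N : ℕ} (T : Fin n → Finset (Fin N)) (B : Finset (Fin N)) : ℕ :=
  ∑ r, ((B ∩ T r).card - (T r).card / 2)

/-- **A1.** A program of depth at most `t` over bits of degree at most `δ` has degree at most
`w t δ`. Induction on `P`, like `prog_le` in `Pool/Agent/K9h48/MG/Run.lean`. -/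
def S_A1 : Prop := ∀ (p : ℕ) [Fact p.Prime] (N w δ : ℕ) (A O : Type)
  (f : A → Fin w → V N → Bool), (∀ a i, LB (ZMod p) δ (f a i)) → ∀ (φ : O → ZMod p)
  (P : Prog A (Fin w → Bool) O) (t : ℕ), ∃ R ∈ LK (ZMod p) N (w * t * δ), ∀ x : V N,
    (P.addrs (fun a i => f a i x)).length ≤ t → R x = φ (P.out (fun a i => f a i x))

/-- **A2.** Smolensky's dimension argument for many blocks at once. -/
def S_A2 : Prop := ∀ (p : ℕ) [Fact p.Prime], p ≠ 2 → ∀ (n N Δ : ℕ) (T : Fin n → Finset (Fin N)),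
  (∀ r r', r ≠ r' → Disjoint (T r) (T r')) → ∀ S : Finset (V N),
  (∀ A : Finset (Fin n), ∃ P ∈ LK (ZMod p) N Δ, ∀ x ∈ S, P x = ∏ r ∈ A, sg p (∑ i ∈ T r, x i)) →
  S.card ≤ (univ.filter fun B : Finset (Fin N) => excess T B ≤ Δ).card

/-- **A3.** Few sets have small excess (`x ↦ (1/16)^(number of r with excess at least a)`). -/
def S_A3 : Prop := ∀ (n N τ a Δ : ℕ) (T : Fin n → Finset (Fin N)),
  (∀ r r', r ≠ r' → Disjoint (T r) (T r')) → (∀ r, (T r).card = τ) → 1 ≤ a →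
  2 ^ τ ≤ 4 * (univ.filter fun B : Finset (Fin τ) => τ / 2 + a ≤ B.card).card →
  16 * Δ ≤ a * n →
  (univ.filter fun B : Finset (Fin N) => excess T B ≤ Δ).card * 2 ^ (n / 8) ≤ 2 ^ N

/-- **A4.** At least a quarter of the subsets of a set with `τ` elements have `τ / 2 + √τ / 16`
elements. -/
def S_A4 : Prop := ∀ τ : ℕ, 1 ≤ τ → ∃ a : ℕ, 1 ≤ a ∧ τ ≤ 256 * a ^ 2 ∧
  2 ^ τ ≤ 4 * (univ.filter fun B : Finset (Fin τ) => τ / 2 + a ≤ B.card).card

/-- **B1.** A function of degree less than `N / 2` which is supported on the points of one parity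
is zero. -/
def S_B1 : Prop := ∀ (p : ℕ) [Fact p.Prime], p ≠ 2 → ∀ (N Δ : ℕ), 2 * Δ < N →
  ∀ g ∈ LK (ZMod p) N Δ, ∀ c : ZMod 2, (∀ x : V N, g x ≠ 0 → ∑ i, x i = c) → g = 0

/-- **B2.** Substitution of constants and variables. Like `computed_restrict` in `Corner10`. -/
def S_B2 : Prop := ∀ (p k s d n n' : ℕ), p.Prime → ∀ σ : V n' → V n,
  (∀ i, (∃ c, ∀ y, σ y i = c) ∨ (∃ j, ∀ y, σ y i = y j)) → ∀ S : Set (V n),
  Computed p k s d S → Computed p k s d (σ ⁻¹' S)

/-- **B3.** Complements and intersections. -/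
def S_B3 : Prop :=
  (∀ (p k s d n : ℕ) (S : Set (V n)), Computed p k s d S → Computed p k s d Sᶜ) ∧
  (∀ (p k s d n T : ℕ) (F : Fin T → Set (V n)), (∀ j, Computed p k s d (F j)) →
    Computed p k (T * s + 1) (d + 1) {x | ∀ j, x ∈ F j})

/-- **B4.** A set of points of one parity which is computed by a small circuit is small.
(`piece` in `Corner8`, `choose_lower` in `Corner9`, `r = 1 / (80 M)`, and B1.) -/
def S_B4 : Prop := ∀ (p k s d N : ℕ), p.Prime → p ≠ 2 → 1 ≤ k → ∀ S : Set (V N),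
  Computed p k s d S → ∀ c : ZMod 2, (∀ x ∈ S, ∑ i, x i = c) →
  (S.ncard : ℝ) ≤ 16 * (N + 1) * 2 ^ N *
    Real.exp (-(N : ℝ) / (204 * ((k * ((p - 1) * (Nat.clog 2 s + 4)) ^ d : ℕ) : ℝ) ^ 2))

/-- **B5.** Induction on the program `P` (generalise: `x` in the intersection of `T0` sets). -/
def S_B5 : Prop := ∀ (p k s d N w : ℕ) (A O : Type) (f : A → Fin w → V N → Bool),
  (∀ a i, Computed p k s d {x | f a i x = true}) → ∀ (β : O → ZMod 2)
  (P : Prog A (Fin w → Bool) (Option O)) (t : ℕ) (b : ℝ), 0 ≤ b →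
  (∀ (T : ℕ) (F : Fin T → Set (V N)), T ≤ w * t → (∀ j, Computed p k s d (F j)) →
    ∀ c : ZMod 2, (∀ x, (∀ j, x ∈ F j) → ∑ i, x i = c) →
      (Set.ncard {x | ∀ j, x ∈ F j} : ℝ) ≤ b) →
  (∀ (x : V N) (o : O), P.out (fun a i => f a i x) = some o → ∑ i, x i = β o) →
  (Set.ncard {x : V N | (P.out (fun a i => f a i x)).isSome = true ∧
    (P.addrs (fun a i => f a i x)).length ≤ t} : ℝ) ≤ 2 ^ (w * t) * b

/-- overwrite the coordinates `e j` -/
noncomputable def ovr {N N' : ℕ} (e : Fin N' → Fin N) (x : V N) (y : V N') : V N := fun i =>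
  open Classical in if h : ∃ j, e j = i then y h.choose else x i

/-- **B6.** -/
def S_B6 : Prop := ∀ (N N' : ℕ) (e : Fin N' → Fin N), Function.Injective e →
  ∀ (Q : V N → Prop) (b : ℝ), (∀ x, (Set.ncard {y : V N' | Q (ovr e x y)} : ℝ) ≤ b) →
    (Set.ncard {x | Q x} : ℝ) * 2 ^ N' ≤ 2 ^ N * b

end Pool.Agent.K9h48.AP
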